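import Pool.Agent.H973R2.Long
import Pool.Agent.H974R2.BK
import Pool.Agent.H974R2.Circ

/-!
Crossing probabilities of rectangles at the critical point: dependence on the width.
-/

set_option autoImplicit false

namespace H362A
open Finset H974

/-- the parameter -/
noncomputable abbrev ph : Edg → ℝ := fun _ => (1 / 2 : ℝ)

theorem okp : Ok ph := okq (q := 1 / 2) (by norm_num) (by norm_num)

/-- crossing probability of a rectangle of width `w` and height `h` -/
noncomputable abbrev H (w h : ℤ) : ℝ := hh (1 / 2) w h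

theorem H_nonneg (w h : ℤ) : 0 ≤ H w h := hh_nonneg (by norm_num) (by norm_num) w h
theorem H_le_one (w h : ℤ) : H w h ≤ 1 := hh_le_one (by norm_num) (by norm_num) w h

/-- the crossing from the column `m - w` stops exactly at the column `m` -/
def A (w n m : ℤ) (F : Finset Edg) : Prop := LRc (m - w) m 0 n F ∧ ¬ LRc (m - w) (m + 1) 0 n F

theorem pr_A {w n m k : ℤ} (hw : 1 ≤ w) (hm : 0 ≤ m ∧ m ≤ k) :
    Pr ph (RE (-w) (k + 1) 0 n) (A w n m) = H w n - H (w + 1) n := by
  set S := RE (-w) (k + 1) 0 n with hS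
  have s1 : LRE (m - w) m 0 n ⊆ S :=
    LRE_subset_RE.trans (RE_subset (by omega) (by omega) le_rfl le_rfl)
  have s2 : LRE (m - w) (m + 1) 0 n ⊆ S :=
    LRE_subset_RE.trans (RE_subset (by omega) (by omega) le_rfl le_rfl)
  have e1 : Pr ph S (LRc (m - w) m 0 n) = H w n := by
    have := pr_LRc (1 / 2) s1
    rw [show m - (m - w) = w by ring, sub_zero] at this
    exact this
  have e2 : Pr ph S (LRc (m - w) (m + 1) 0 n) = H (w + 1) n := by
    have := pr_LRc (1 / 2) s2
    rw [show m + 1 - (m - w) = w + 1 by ring, sub_zero] at this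
    exact this
  rw [← e1, ← e2]
  unfold Pr
  rw [← Ex_sub]
  apply Ex_congr
  intro F _
  by_cases h1 : LRc (m - w) (m + 1) 0 n F
  · have h2 : LRc (m - w) m 0 n F := LRc_sub le_rfl (by omega) (by omega) le_rfl le_rfl h1
    rw [ind_of h1, ind_of h2, ind_not_of (fun h => h.2 h1)]
    ring
  · rw [ind_not_of h1]
    by_cases h2 : LRc (m - w) m 0 n F
    · rw [ind_of h2, ind_of (show A w n m F from ⟨h2, h1⟩)]
      ring
    · rw [ind_not_of h2, ind_not_of (fun h => h2 h.1)]
      ring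

/-- number of columns at which some crossing stops -/
noncomputable def N (w n k : ℤ) (F : Finset Edg) : ℝ := ∑ m ∈ Finset.Icc 0 k, ind (A w n m F)

theorem ex_N {w n k : ℤ} (hw : 1 ≤ w) (hk : 0 ≤ k) :
    Ex ph (RE (-w) (k + 1) 0 n) (N w n k) = (k + 1) * (H w n - H (w + 1) n) := by
  unfold N
  rw [Ex_sum]
  have h1 : ∀ m ∈ Finset.Icc 0 k, Ex ph (RE (-w) (k + 1) 0 n) (fun F => ind (A w n m F)) =
      H w n - H (w + 1) n := by
    intro m hm
    rw [Finset.mem_Icc] at hm
    exact pr_A hw hm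
  rw [Finset.sum_congr rfl h1, Finset.sum_const, nsmul_eq_mul]
  congr 1
  rw [Int.card_Icc]
  have : ((k + 1 - 0).toNat : ℤ) = k + 1 := by omega
  exact_mod_cast this

/-! ### lower bound -/

theorem lower {w n k : ℤ} (hw : 1 ≤ w) (hn : 0 ≤ n) (hk : 0 ≤ k) (hkw : k ≤ w) :
    H w n * H (n + 1) k ≤ (k + 1) * (H w n - H (w + 1) n) := by
  set S := RE (-w) (k + 1) 0 n with hS
  rw [← ex_N hw hk]
  have s1 : LRE (-w) 0 0 n ⊆ S :=
    LRE_subset_RE.trans (RE_subset le_rfl (by omega) le_rfl le_rfl)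
  have s2 : LRE 0 (k + 1) 0 n ⊆ S :=
    LRE_subset_RE.trans (RE_subset (by omega) le_rfl le_rfl le_rfl)
  have hd : Disjoint (LRE (-w) 0 0 n) (LRE 0 (k + 1) 0 n) := by
    rw [Finset.disjoint_left]
    rintro ⟨x, y, _ | _⟩ h1 h2
    · rw [mem_LRE_false] at h1 h2; omega
    · rw [mem_LRE_true] at h1 h2; omega
  have i1 : Pr ph S (fun F => LRc (-w) 0 0 n F ∧ ¬ LRc 0 (k + 1) 0 n F) =
      Pr ph S (LRc (-w) 0 0 n) * Pr ph S (fun F => ¬ LRc 0 (k + 1) 0 n F) :=
    Pr_indep s1 s2 hd (fun F _ => LRc_local (Finset.Subset.refl _))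
      (fun F _ => not_congr (LRc_local (Finset.Subset.refl _)))
  have e1 : Pr ph S (LRc (-w) 0 0 n) = H w n := by
    have := pr_LRc (1 / 2) s1
    rw [show 0 - -w = w by ring, sub_zero] at this
    exact this
  have e2 : Pr ph S (fun F => ¬ LRc 0 (k + 1) 0 n F) = H (n + 1) k := by
    rw [Pr_not]
    have := pr_LRc (1 / 2) s2
    rw [sub_zero, sub_zero] at this
    have h3 : Pr ph S (LRc 0 (k + 1) 0 n) = H (k + 1) n := this
    rw [h3]
    have h4 := hh_dual (q := 1 / 2) (w := k + 1) (h := n) (by omega) hn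
    rw [show (1 : ℝ) - 1 / 2 = 1 / 2 by norm_num, show k + 1 - 1 = k by ring] at h4
    show 1 - hh (1 / 2) (k + 1) n = hh (1 / 2) (n + 1) k
    rw [h4]
    ring
  rw [← e1, ← e2, ← i1]
  unfold Pr
  apply Ex_mono okp
  intro F _
  by_cases hc : LRc (-w) 0 0 n F ∧ ¬ LRc 0 (k + 1) 0 n F
  · rw [ind_of hc]
    obtain ⟨c1, c2⟩ := hc
    -- the largest column
    have hex : ∃ m : ℤ, (0 ≤ m ∧ m ≤ k) ∧ A w n m F := by
      classical
      obtain ⟨m, hm, hmax⟩ := Finset.exists_max_image
        ((Finset.Icc 0 k).filter (fun m : ℤ => LRc (m - w) m 0 n F)) id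
        ⟨0, by
          rw [Finset.mem_filter, Finset.mem_Icc]
          refine ⟨⟨le_rfl, hk⟩, ?_⟩
          rw [zero_sub]
          exact c1⟩
      rw [Finset.mem_filter, Finset.mem_Icc] at hm
      refine ⟨m, hm.1, hm.2, fun h => ?_⟩
      rcases lt_or_eq_of_le hm.1.2 with h1 | h1
      · have h2 : LRc (m + 1 - w) (m + 1) 0 n F :=
          LRc_sub (by omega) (by omega) le_rfl le_rfl le_rfl h
        have h3 := hmax (m + 1) (by
          rw [Finset.mem_filter, Finset.mem_Icc]
          exact ⟨⟨by omega, by omega⟩, h2⟩)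
        simp only [id] at h3
        omega
      · apply c2
        rw [h1] at h
        exact LRc_sub (by omega) (by omega) le_rfl le_rfl le_rfl h
    obtain ⟨m, hm, hA⟩ := hex
    unfold N
    have h1 : ind (A w n m F) ≤ ∑ m ∈ Finset.Icc 0 k, ind (A w n m F) :=
      Finset.single_le_sum (f := fun m => ind (A w n m F)) (fun i _ => ind_nonneg _)
        (Finset.mem_Icc.mpr hm)
    rw [ind_of hA] at h1
    exact h1
  · rw [ind_not_of hc]
    unfold N
    exact Finset.sum_nonneg (fun i _ => ind_nonneg _)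

/-! ### upper bound -/

/-- `t` disjoint crossings -/
def Dj (a b n : ℤ) : ℕ → Finset Edg → Prop
  | 0, _ => True
  | t + 1, F => DisjOcc (LRc a b 0 n) (Dj a b n t) F

theorem Dj_mono {a b n : ℤ} (t : ℕ) {F G : Finset Edg} (h : F ⊆ G) (hF : Dj a b n t F) :
    Dj a b n t G := by
  cases t with
  | zero => trivial
  | succ t =>
    obtain ⟨K, L, h1, h2, h3⟩ := hF
    exact ⟨K, L, h1.trans h, h2.trans h, h3⟩

theorem pr_Dj {a b n : ℤ} {S : Finset Edg} (hS : LRE a b 0 n ⊆ S) (t : ℕ) :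
    Pr ph S (Dj a b n t) ≤ (H (b - a) n) ^ t := by
  induction t with
  | zero =>
    rw [pow_zero]
    exact Pr_le_one okp _ _
  | succ t ih =>
    have h1 : Pr ph S (Dj a b n (t + 1)) ≤ Pr ph S (LRc a b 0 n) * Pr ph S (Dj a b n t) :=
      bk okp (LRc_incr _ _ _ _ _) (fun F G h _ hF => Dj_mono t h hF)
    have e1 : Pr ph S (LRc a b 0 n) = H (b - a) n := by
      have := pr_LRc (1 / 2) hS
      rw [sub_zero] at this
      exact this
    rw [e1] at h1
    rw [pow_succ, mul_comm]
    exact h1.trans (mul_le_mul_of_nonneg_left ih (H_nonneg _ _))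

theorem Dj_of_family {a b n : ℤ} {T : Finset ℤ} {K : ℤ → Finset Edg} :
    ∀ F : Finset Edg, (∀ m ∈ T, K m ⊆ F ∧ LRc a b 0 n (K m)) →
      (∀ m ∈ T, ∀ m' ∈ T, m < m' → Disjoint (K m) (K m')) → Dj a b n T.card F := by
  classical
  induction T using Finset.induction_on with
  | empty => intro F _ _; simp [Dj]
  | insert m0 T hm0 ih =>
    intro F h1 h2
    rw [Finset.card_insert_of_notMem hm0]
    refine ⟨K m0, T.biUnion K, (h1 m0 (Finset.mem_insert_self _ _)).1, ?_, ?_,
      (h1 m0 (Finset.mem_insert_self _ _)).2, ?_⟩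
    · rw [Finset.biUnion_subset]
      intro m hm
      exact (h1 m (Finset.mem_insert_of_mem hm)).1
    · rw [Finset.disjoint_biUnion_right]
      intro m hm
      have hne : m0 ≠ m := fun h => hm0 (h ▸ hm)
      rcases lt_or_gt_of_ne hne with h | h
      · exact h2 m0 (Finset.mem_insert_self _ _) m (Finset.mem_insert_of_mem hm) h
      · exact (h2 m (Finset.mem_insert_of_mem hm) m0 (Finset.mem_insert_self _ _) h).symm
    · apply ih
      · intro m hm
        exact ⟨Finset.subset_biUnion_of_mem K hm, (h1 m (Finset.mem_insert_of_mem hm)).2⟩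
      · intro m hm m' hm' hlt
        exact h2 m (Finset.mem_insert_of_mem hm) m' (Finset.mem_insert_of_mem hm') hlt

theorem reach_in {G : Set Edg} {p q : Vtx} (h : Reach G p q) :
    Reach {e | e ∈ G ∧ Reach G p (src e)} p q := by
  have key : Reach {e | e ∈ G ∧ Reach G p (src e)} p q ∧ Reach G p q := by
    induction h with
    | refl => exact ⟨Reach.refl _ _, Reach.refl _ _⟩
    | @tail b d _ hs ih =>
      obtain ⟨ih1, ih2⟩ := ih
      have hd : Reach G p d := ih2.trans (Adj.reach hs)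
      refine ⟨ih1.trans ?_, hd⟩
      obtain ⟨e, he, hc⟩ := hs
      refine Adj.reach ⟨e, ⟨he, ?_⟩, hc⟩
      rcases hc with ⟨h1, -⟩ | ⟨h1, -⟩
      · rw [h1]; exact ih2
      · rw [h1]; exact hd
  exact key.1

theorem family {w n k : ℤ} (hw : 1 ≤ w) (hk : 0 ≤ k) (hkw : k < w) {F : Finset Edg}
    {T : Finset ℤ} (hT : ∀ m ∈ T, (0 ≤ m ∧ m ≤ k) ∧ A w n m F) :
    Dj (k - w) 0 n T.card F := by
  classical
  -- the windows
  set G : ℤ → Set Edg := fun m => ↑F ∩ ↑(RE (m - w) (k + 1) 0 n) with hG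
  have hGm : ∀ m m', m ≤ m' → G m' ⊆ G m := by
    intro m m' h
    apply Set.inter_subset_inter_right
    exact_mod_cast RE_subset (by omega) le_rfl le_rfl le_rfl
  have h1 : ∀ m : ℤ, ∃ p q : Vtx, m ∈ T → p.1 = m - w ∧ q.1 = m ∧ Reach (G m) p q := by
    intro m
    by_cases hm : m ∈ T
    · obtain ⟨⟨hm0, hmk⟩, ⟨y, y', hy, hy', hr⟩, -⟩ := hT m hm
      refine ⟨(m - w, y), (m, y'), fun _ => ⟨rfl, rfl, hr.mono ?_⟩⟩
      apply Set.inter_subset_inter_right
      have : LRE (m - w) m 0 n ⊆ RE (m - w) (k + 1) 0 n :=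
        LRE_subset_RE.trans (RE_subset le_rfl (by omega) le_rfl le_rfl)
      exact_mod_cast this
    · exact ⟨(0, 0), (0, 0), fun h => absurd h hm⟩
  choose p q hpq using h1
  have hH : ∀ m x y, ((x, y, true) : Edg) ∈ G m → 0 ≤ y ∧ y ≤ n := by
    rintro m x y ⟨-, h⟩
    simp only [mem_coe, mem_RE_true] at h
    omega
  have hV : ∀ m x y, ((x, y, false) : Edg) ∈ G m → 0 ≤ y ∧ y < n := by
    rintro m x y ⟨-, h⟩
    simp only [mem_coe, mem_RE_false] at h
    omega
  -- the cluster does not reach the column `m + 1`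
  have hstop : ∀ m ∈ T, ∀ v, Reach (G m) (p m) v → v.1 ≤ m := by
    intro m hm v hv
    by_contra hlt
    push Not at hlt
    obtain ⟨y1, y2, k1, k2, k3, -⟩ := sub_LR (a := m - w) (b := m + 1) (c := 0) (d := n)
      (by omega) (fun x y h _ _ => hH m x y h) (fun x y h _ _ => hV m x y h) hv
      (hpq m hm).1.le (by omega)
    apply (hT m hm).2.2
    exact ⟨y1, y2, k1, k2, k3.mono (Set.inter_subset_inter_left _ Set.inter_subset_left)⟩
  set K : ℤ → Finset Edg := fun m =>
    (F ∩ LRE (k - w) 0 0 n).filter (fun e => Reach (G m) (p m) (src e)) with hK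
  apply Dj_of_family (K := K) F
  · intro m hm
    constructor
    · exact (Finset.filter_subset _ _).trans Finset.inter_subset_left
    · obtain ⟨hp, hq, hr⟩ := hpq m hm
      have hr' := reach_in hr
      obtain ⟨⟨hm0, hmk⟩, -⟩ := hT m hm
      obtain ⟨y1, y2, k1, k2, k3, -⟩ := sub_LR (a := k - w) (b := 0) (c := 0) (d := n)
        (by omega) (fun x y h _ _ => hH m x y h.1) (fun x y h _ _ => hV m x y h.1) hr'
        (by omega) (by omega)
      refine ⟨y1, y2, k1, k2, k3.mono ?_⟩
      rintro e ⟨⟨he1, he2⟩, he3⟩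
      refine ⟨?_, he3⟩
      rw [Finset.mem_coe, hK]
      simp only [Finset.mem_filter, Finset.mem_inter]
      exact ⟨⟨Finset.mem_coe.mp he1.1, Finset.mem_coe.mp he3⟩, he2⟩
  · intro m hm m' hm' hlt
    rw [Finset.disjoint_left]
    intro e he he'
    rw [hK] at he he'
    simp only [Finset.mem_filter] at he he'
    obtain ⟨hp', hq', hr'⟩ := hpq m' hm'
    have h2 : Reach (G m') (src e) (q m') := he'.2.symm.trans hr'
    have h3 : Reach (G m) (p m) (q m') := he.2.trans (h2.mono (hGm m m' hlt.le))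
    have := hstop m hm _ h3
    omega

theorem N_le {w n k : ℤ} (hw : 1 ≤ w) (hk : 0 ≤ k) (hkw : k < w) (F : Finset Edg) :
    N w n k F ≤ ∑ t ∈ Finset.range (k + 1).toNat, ind (Dj (k - w) 0 n (t + 1) F) := by
  classical
  set T := (Finset.Icc 0 k).filter (fun m => A w n m F) with hTdef
  have e1 : N w n k F = (T.card : ℝ) := by
    unfold N
    rw [hTdef, Finset.card_filter]
    push_cast
    apply Finset.sum_congr rfl
    intro m _
    unfold ind
    split_ifs <;> rfl
  have hcard : T.card ≤ (k + 1).toNat := by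
    refine (Finset.card_filter_le _ _).trans ?_
    rw [Int.card_Icc]
    omega
  have hD : ∀ t < T.card, Dj (k - w) 0 n (t + 1) F := by
    intro t ht
    obtain ⟨T', hT', hc⟩ := Finset.exists_subset_card_eq (s := T) (n := t + 1) (by omega)
    rw [← hc]
    apply family hw hk hkw
    intro m hm
    have := hT' hm
    rw [hTdef, Finset.mem_filter, Finset.mem_Icc] at this
    exact this
  rw [e1]
  calc (T.card : ℝ) = ∑ t ∈ Finset.range T.card, (1 : ℝ) := by simp
    _ = ∑ t ∈ Finset.range T.card, ind (Dj (k - w) 0 n (t + 1) F) := by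
        apply Finset.sum_congr rfl
        intro t ht
        rw [ind_of (hD t (Finset.mem_range.mp ht))]
    _ ≤ _ := Finset.sum_le_sum_of_subset_of_nonneg
        (Finset.range_subset_range.mpr hcard) (fun _ _ _ => ind_nonneg _)

theorem upper {w n k : ℤ} (hw : 1 ≤ w) (hk : 0 ≤ k) (hkw : k < w) (hlt : H (w - k) n < 1) :
    (k + 1) * (H w n - H (w + 1) n) ≤ H (w - k) n / (1 - H (w - k) n) := by
  set S := RE (-w) (k + 1) 0 n with hS
  rw [← ex_N hw hk]
  have s1 : LRE (k - w) 0 0 n ⊆ S :=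
    LRE_subset_RE.trans (RE_subset (by omega) (by omega) le_rfl le_rfl)
  have h0 := H_nonneg (w - k) n
  calc Ex ph S (N w n k)
      ≤ Ex ph S (fun F => ∑ t ∈ Finset.range (k + 1).toNat, ind (Dj (k - w) 0 n (t + 1) F)) :=
        Ex_mono okp (fun F _ => N_le hw hk hkw F)
    _ = ∑ t ∈ Finset.range (k + 1).toNat, Pr ph S (Dj (k - w) 0 n (t + 1)) := by
        rw [Ex_sum]
        rfl
    _ ≤ ∑ t ∈ Finset.range (k + 1).toNat, (H (w - k) n) ^ (t + 1) := by
        apply Finset.sum_le_sum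
        intro t _
        have := pr_Dj (n := n) s1 (t + 1)
        rw [show (0 : ℤ) - (k - w) = w - k by ring] at this
        exact this
    _ = H (w - k) n * ∑ t ∈ Finset.range (k + 1).toNat, (H (w - k) n) ^ t := by
        rw [Finset.mul_sum]
        apply Finset.sum_congr rfl
        intro t _
        rw [pow_succ]; ring
    _ ≤ H (w - k) n * (1 - H (w - k) n)⁻¹ := by
        apply mul_le_mul_of_nonneg_left _ h0
        have hg := (hasSum_geometric_of_lt_one h0 hlt)
        exact sum_le_hasSum _ (fun i _ => pow_nonneg h0 i) hg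
    _ = _ := by rw [div_eq_mul_inv]

end H362A
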