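import Pool.Agent.H362P.Asp

/-!
Crossing probabilities of rectangles: two-sided exponential estimate in the width.
-/

set_option autoImplicit false

namespace H362A
open Finset H974

theorem line_reach (w : ℕ) (F : Finset Edg) (hF : ∀ i : ℕ, i < w → ((i : ℤ), (0 : ℤ), true) ∈ F)
    (h : ℤ) (hh0 : 0 ≤ h) : Reach (↑F ∩ ↑(LRE 0 w 0 h)) (0, 0) ((w : ℤ), 0) := by
  have key : ∀ j : ℕ, j ≤ w → Reach (↑F ∩ ↑(LRE 0 w 0 h)) (0, 0) ((j : ℤ), 0) := by
    intro j
    induction j with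
    | zero => intro _; exact Reach.refl _ _
    | succ j ih =>
      intro hj
      refine (ih (by omega)).trans (Adj.reach ⟨((j : ℤ), (0 : ℤ), true), ⟨?_, ?_⟩, Or.inl ⟨rfl, ?_⟩⟩)
      · exact_mod_cast hF j (by omega)
      · rw [Finset.mem_coe, mem_LRE_true]
        omega
      · show ((j : ℤ) + 1, (0 : ℤ)) = (((j + 1 : ℕ) : ℤ), 0)
        push_cast
        rfl
  exact key w le_rfl

theorem H_triv (w : ℕ) {h : ℤ} (hh0 : 0 ≤ h) : (1 / 2 : ℝ) ^ w ≤ H w h := by
  classical
  set L : Finset Edg := (Finset.range w).image (fun i : ℕ => (((i : ℤ), (0 : ℤ), true) : Edg))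
    with hL
  have hLs : L ⊆ LRE 0 w 0 h := by
    intro e he
    rw [hL, Finset.mem_image] at he
    obtain ⟨i, hi, rfl⟩ := he
    rw [Finset.mem_range] at hi
    rw [mem_LRE_true]
    omega
  have h1 : Pr ph L (LRc 0 w 0 h) ≤ H w h :=
    Pr_mono_set okp hLs (LRc_incr _ _ _ _ _)
  refine le_trans ?_ h1
  have hc : L.card ≤ w := by
    rw [hL]
    refine Finset.card_image_le.trans ?_
    rw [Finset.card_range]
  have hA : LRc 0 w 0 h L := by
    refine ⟨0, 0, ⟨le_rfl, hh0⟩, ⟨le_rfl, hh0⟩, ?_⟩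
    apply line_reach w L _ h hh0
    intro i hi
    rw [hL, Finset.mem_image]
    exact ⟨i, Finset.mem_range.mpr hi, rfl⟩
  unfold Pr Ex
  have h2 : (∏ e ∈ L, ph e) * (∏ e ∈ L \ L, (1 - ph e)) * ind (LRc 0 w 0 h L) ≤
      ∑ F ∈ L.powerset, (∏ e ∈ F, ph e) * (∏ e ∈ L \ F, (1 - ph e)) * ind (LRc 0 w 0 h F) :=
    Finset.single_le_sum
      (f := fun F => (∏ e ∈ F, ph e) * (∏ e ∈ L \ F, (1 - ph e)) * ind (LRc 0 w 0 h F))
      (fun F _ => mul_nonneg (mul_nonneg (Finset.prod_nonneg (fun e _ => (okp e).1))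
        (Finset.prod_nonneg (fun e _ => by have := (okp e).2; linarith))) (ind_nonneg _))
      (Finset.mem_powerset_self L)
  refine le_trans ?_ h2
  rw [ind_of hA, Finset.sdiff_self, Finset.prod_empty, mul_one, mul_one, Finset.prod_const]
  exact pow_le_pow_of_le_one (by norm_num) (by norm_num) hc

theorem rswK (K : ℕ) : ∃ c : ℝ, 0 < c ∧ c ≤ 1 ∧ ∀ w h : ℕ, 1 ≤ w → w ≤ K * (h + 1) →
    c ≤ H w h := by
  refine ⟨(1 / 2 : ℝ) ^ (2 * K + 48 * (K + 1)), by positivity,
    pow_le_one₀ (by norm_num) (by norm_num), ?_⟩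
  intro w h hw hwh
  rcases Nat.lt_or_ge h 2 with h2 | h2
  · refine le_trans ?_ (H_triv w (by positivity))
    apply pow_le_pow_of_le_one (by norm_num) (by norm_num)
    have : w ≤ 2 * K := by
      refine hwh.trans ?_
      have : h + 1 ≤ 2 := by omega
      calc K * (h + 1) ≤ K * 2 := Nat.mul_le_mul_left _ this
        _ = 2 * K := by ring
    omega
  · have hm : (0 : ℤ) < ((h / 2 : ℕ) : ℤ) := by
      have : 0 < h / 2 := by omega
      exact_mod_cast this
    have h1 := H973.hh_long K hm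
    have h3 : (w : ℤ) ≤ (8 + 6 * (K : ℤ)) * ((h / 2 : ℕ) : ℤ) := by
      have h4 : h + 1 ≤ 4 * (h / 2) := by omega
      have h5 : w ≤ (8 + 6 * K) * (h / 2) := by
        calc w ≤ K * (h + 1) := hwh
          _ ≤ K * (4 * (h / 2)) := Nat.mul_le_mul_left _ h4
          _ ≤ (8 + 6 * K) * (h / 2) := by nlinarith [Nat.zero_le (h / 2)]
      exact_mod_cast h5
    have h6 := hh_mono (q := 1 / 2) (by norm_num) (by norm_num) (w := (8 + 6 * (K : ℤ)) *
      ((h / 2 : ℕ) : ℤ)) (w' := w) (h := 2 * ((h / 2 : ℕ) : ℤ)) (h' := h)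
      (by exact_mod_cast hw) h3 (by omega)
    refine le_trans ?_ (h1.trans h6)
    exact pow_le_pow_of_le_one (by norm_num) (by norm_num) (by omega)

theorem one_sub_H {w n : ℕ} (hw : 1 ≤ w) : 1 - H w n = H ((n + 1 : ℕ) : ℤ) ((w - 1 : ℕ) : ℤ) := by
  have h4 := hh_dual (q := 1 / 2) (w := (w : ℤ)) (h := (n : ℤ)) (by exact_mod_cast hw)
    (by positivity)
  rw [show (1 : ℝ) - 1 / 2 = 1 / 2 by norm_num] at h4
  have e1 : ((n + 1 : ℕ) : ℤ) = (n : ℤ) + 1 := by push_cast; ring
  have e2 : ((w - 1 : ℕ) : ℤ) = (w : ℤ) - 1 := by omega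
  rw [e1, e2]
  show 1 - hh (1 / 2) (w : ℤ) n = hh (1 / 2) ((n : ℤ) + 1) ((w : ℤ) - 1)
  rw [h4]
  ring

theorem H_pos {w n : ℕ} : 0 < H w n := by
  have := H_triv w (h := (n : ℤ)) (by positivity)
  exact lt_of_lt_of_le (by positivity) this

theorem H_anti {w w' n : ℕ} (hw : 1 ≤ w) (h : w ≤ w') : H w' n ≤ H w n :=
  hh_mono (by norm_num) (by norm_num) (by exact_mod_cast hw) (by exact_mod_cast h) le_rfl

/-- one step -/
theorem step (K : ℕ) (hK : 1 ≤ K) : ∃ c C : ℝ, 0 < c ∧ 0 < C ∧ ∀ w n : ℕ, 1 ≤ w → 1 ≤ n →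
    n ≤ K * w → c / n * H w n ≤ H w n - H ((w + 1 : ℕ) : ℤ) n ∧
      H w n - H ((w + 1 : ℕ) : ℤ) n ≤ C / n * H w n := by
  obtain ⟨c1, hc1, hc11, h1⟩ := rswK (4 * K)
  obtain ⟨c2, hc2, hc21, h2⟩ := rswK 1
  refine ⟨c1 / 2, 2 * K / (c1 * (c1 * c2)), by positivity, by positivity, ?_⟩
  intro w n hw hn hnw
  set k := min w n / 2 with hk
  have hkw : k < w := by omega
  have hnK : n ≤ 2 * K * (k + 1) := by
    have e1 : n ≤ K * min w n := by
      rcases min_choice w n with h | h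
      · rw [h]; exact hnw
      · rw [h]; nlinarith
    have e2 : min w n ≤ 2 * (k + 1) := by omega
    calc n ≤ K * min w n := e1
      _ ≤ K * (2 * (k + 1)) := Nat.mul_le_mul_left _ e2
      _ = 2 * K * (k + 1) := by ring
  have hn0 : (0 : ℝ) < n := by exact_mod_cast hn
  have hk0 : (0 : ℝ) < (k : ℝ) + 1 := by positivity
  have hnK' : (n : ℝ) ≤ 2 * K * (k + 1) := by exact_mod_cast hnK
  have hHp := H_pos (w := w) (n := n)
  have ew : (((w + 1 : ℕ) : ℤ)) = (w : ℤ) + 1 := by push_cast; ring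
  rw [ew]
  -- the dual crossing
  have d1 : c1 ≤ H ((n : ℤ) + 1) k := by
    have := h1 (n + 1) k (by omega) (by
      have : n + 1 ≤ 2 * K * (k + 1) + 1 := by omega
      have h3 : 1 ≤ 2 * K * (k + 1) := by nlinarith
      calc n + 1 ≤ 2 * K * (k + 1) + 1 := this
        _ ≤ 4 * K * (k + 1) := by nlinarith)
    push_cast at this
    exact this
  constructor
  · have l := lower (w := (w : ℤ)) (n := (n : ℤ)) (k := (k : ℤ)) (by exact_mod_cast hw)
      (by positivity) (by positivity) (by omega)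
    have h3 : c1 * H w n ≤ (k + 1) * (H w n - H ((w : ℤ) + 1) n) := by
      calc c1 * H w n ≤ H w n * H ((n : ℤ) + 1) k := by
            rw [mul_comm]
            exact mul_le_mul_of_nonneg_left d1 hHp.le
        _ ≤ _ := by exact_mod_cast l
    have hkn : (k : ℝ) + 1 ≤ 2 * n := by
      have : k + 1 ≤ 2 * n := by omega
      exact_mod_cast this
    have h4 : 0 ≤ H w n - H ((w : ℤ) + 1) n := by
      have := H_anti (n := n) hw (show w ≤ w + 1 by omega)
      rw [ew] at this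
      linarith
    have h5 : c1 * H w n ≤ 2 * n * (H w n - H ((w : ℤ) + 1) n) :=
      h3.trans (mul_le_mul_of_nonneg_right hkn h4)
    rw [show c1 / 2 / n * H w n = (c1 * H w n) / (2 * n) by ring, div_le_iff₀ (by positivity)]
    linarith
  · -- the crossings of the common window
    have d2 : c1 ≤ 1 - H (((w - k : ℕ) : ℕ) : ℤ) n := by
      rw [one_sub_H (by omega)]
      apply h1 (n + 1) (w - k - 1) (by omega)
      have h3 : k + 1 ≤ w - k - 1 + 1 + 1 := by omega
      have h4 : n + 1 ≤ 2 * K * (k + 1) + 1 := by omega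
      have h5 : 1 ≤ w - k := by omega
      have h6 : w - k - 1 + 1 = w - k := by omega
      rw [h6]
      have h7 : n ≤ K * (2 * (w - k)) := by
        refine hnw.trans (Nat.mul_le_mul_left _ ?_)
        omega
      have h8 : 1 ≤ K * (w - k) := Nat.one_le_iff_ne_zero.mpr (by positivity)
      calc n + 1 ≤ K * (2 * (w - k)) + K * (w - k) := by omega
        _ ≤ 4 * K * (w - k) := by nlinarith [Nat.zero_le (w - k)]
    have hwk : (((w - k : ℕ)) : ℤ) = (w : ℤ) - k := by omega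
    have hlt : H ((w : ℤ) - k) n < 1 := by rw [hwk] at d2; linarith
    have u := upper (w := (w : ℤ)) (n := (n : ℤ)) (k := (k : ℤ)) (by exact_mod_cast hw)
      (by positivity) (by omega) hlt
    have u' : ((k : ℝ) + 1) * (H w n - H ((w : ℤ) + 1) n) ≤ H ((w : ℤ) - k) n / c1 := by
      have h3 : H ((w : ℤ) - k) n / (1 - H ((w : ℤ) - k) n) ≤ H ((w : ℤ) - k) n / c1 := by
        apply div_le_div_of_nonneg_left (H_nonneg _ _) hc1
        rw [hwk] at d2
        exact d2
      refine le_trans ?_ h3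
      exact_mod_cast u
    -- gluing
    have g : H ((w : ℤ) - k) n * (c1 * c2) ≤ H w n := by
      rcases Nat.eq_zero_or_pos k with hk0' | hkpos
      · rw [hk0']
        simp only [Nat.cast_zero, sub_zero]
        have : c1 * c2 ≤ 1 := mul_le_one₀ hc11 hc2.le hc21
        nlinarith
      · have gl := hh_glue (q := 1 / 2) (by norm_num) (by norm_num) (w1 := (w : ℤ) - k)
          (w2 := 2 * (k : ℤ)) (v := k) (h := n) (by exact_mod_cast hkpos) (by omega) (by omega)
          (by exact_mod_cast hn)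
        have e : (w : ℤ) - k + 2 * k - k = w := by ring
        rw [e] at gl
        have g1 : c2 ≤ H (2 * (k : ℤ)) n := by
          have := h2 (2 * k) n (by omega) (by omega)
          push_cast at this
          exact this
        have g2 : c1 ≤ H (n : ℤ) k := h1 n k hn (by nlinarith)
        refine le_trans ?_ gl
        calc H ((w : ℤ) - k) n * (c1 * c2) = H ((w : ℤ) - k) n * c2 * c1 := by ring
          _ ≤ H ((w : ℤ) - k) n * H (2 * (k : ℤ)) n * H (n : ℤ) k := by
              apply mul_le_mul _ g2 hc1.le (mul_nonneg (H_nonneg _ _) (H_nonneg _ _))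
              exact mul_le_mul_of_nonneg_left g1 (H_nonneg _ _)
    have h5 : ((k : ℝ) + 1) * (H w n - H ((w : ℤ) + 1) n) ≤ H w n / (c1 * (c1 * c2)) := by
      refine u'.trans ?_
      rw [div_le_div_iff₀ hc1 (by positivity)]
      calc H ((w : ℤ) - k) n * (c1 * (c1 * c2)) = H ((w : ℤ) - k) n * (c1 * c2) * c1 := by ring
        _ ≤ H w n * c1 := mul_le_mul_of_nonneg_right g hc1.le
    have h4 : 0 ≤ H w n - H ((w : ℤ) + 1) n := by
      have := H_anti (n := n) hw (show w ≤ w + 1 by omega)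
      rw [ew] at this
      linarith
    have h6 : (n : ℝ) * (H w n - H ((w : ℤ) + 1) n) ≤ 2 * K * (H w n / (c1 * (c1 * c2))) := by
      calc (n : ℝ) * (H w n - H ((w : ℤ) + 1) n)
          ≤ (2 * K * (k + 1)) * (H w n - H ((w : ℤ) + 1) n) :=
            mul_le_mul_of_nonneg_right hnK' h4
        _ = 2 * K * ((k + 1) * (H w n - H ((w : ℤ) + 1) n)) := by ring
        _ ≤ _ := mul_le_mul_of_nonneg_left h5 (by positivity)
    rw [show 2 * K / (c1 * (c1 * c2)) / n * H w n =
      (2 * K * (H w n / (c1 * (c1 * c2)))) / n by ring, le_div_iff₀ hn0, mul_comm]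
    exact h6

end H362A
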