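import Pool.Agent.H362P.Asp2

/-!
Crossing probabilities of rectangles: exponential form and scaling limits.
-/

set_option autoImplicit false

namespace H362A
open Finset H974 Filter Topology

theorem one_sub_ge {x : ℝ} (h0 : 0 ≤ x) (h1 : x ≤ 1 / 2) : Real.exp (-(2 * x)) ≤ 1 - x := by
  have h2 : Real.exp (-(2 * x)) * Real.exp (2 * x) = 1 := by
    rw [← Real.exp_add]; simp
  have h3 : 1 + 2 * x ≤ Real.exp (2 * x) := by
    have := Real.add_one_le_exp (2 * x)
    linarith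
  have h4 : 1 ≤ (1 - x) * (1 + 2 * x) := by nlinarith
  have h5 : 0 < Real.exp (2 * x) := Real.exp_pos _
  have h6 : Real.exp (-(2 * x)) * Real.exp (2 * x) ≤ (1 - x) * Real.exp (2 * x) := by
    rw [h2]
    refine h4.trans ?_
    exact mul_le_mul_of_nonneg_left h3 (by linarith)
  exact le_of_mul_le_mul_right h6 h5

theorem expo (K : ℕ) (hK : 1 ≤ K) : ∃ c C : ℝ, 0 < c ∧ 0 < C ∧ ∀ w w' n : ℕ, 1 ≤ n →
    w ≤ w' → n ≤ K * w →
    Real.exp (-(C * ((w' : ℝ) - w) / n)) * H w n ≤ H w' n ∧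
      H w' n ≤ Real.exp (-(c * ((w' : ℝ) - w) / n)) * H w n := by
  obtain ⟨c, C, hc, hC, h⟩ := step K hK
  refine ⟨c, 2 * C + 2 * C * (2 * C + 2), hc, by positivity, ?_⟩
  set C' := 2 * C + 2 * C * (2 * C + 2) with hC'
  intro w w' n hn hww hnw
  have hn0 : (0 : ℝ) < n := by exact_mod_cast hn
  have hw1 : 1 ≤ w := by
    rcases Nat.eq_zero_or_pos w with h0 | h0
    · rw [h0] at hnw; omega
    · exact h0
  obtain ⟨j, rfl⟩ := Nat.exists_eq_add_of_le hww
  clear hww
  have e : ∀ j : ℕ, (((w + j : ℕ) : ℝ) - w) = j := by intro j; push_cast; ring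
  rw [e]
  induction j with
  | zero => simp
  | succ j ih =>
    obtain ⟨i1, i2⟩ := ih
    have hnj : n ≤ K * (w + j) := hnw.trans (Nat.mul_le_mul_left _ (by omega))
    obtain ⟨s1, s2⟩ := h (w + j) n (by omega) hn hnj
    have hHp := H_pos (w := w + j) (n := n)
    have ej : w + (j + 1) = w + j + 1 := by ring
    rw [ej]
    constructor
    · have key : Real.exp (-(C' / n)) * H ((w + j : ℕ) : ℤ) n ≤ H ((w + j + 1 : ℕ) : ℤ) n := by
        by_cases hbig : 2 * C ≤ n
        · have x1 : C / n ≤ 1 / 2 := by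
            rw [div_le_iff₀ hn0]
            linarith
          have x2 := one_sub_ge (x := C / n) (by positivity) x1
          have x3 : Real.exp (-(C' / n)) ≤ Real.exp (-(2 * (C / n))) := by
            apply Real.exp_le_exp.mpr
            apply neg_le_neg
            rw [← mul_div_assoc]
            apply div_le_div_of_nonneg_right _ hn0.le
            rw [hC']
            nlinarith
          have x4 : (1 - C / n) * H ((w + j : ℕ) : ℤ) n ≤ H ((w + j + 1 : ℕ) : ℤ) n := by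
            linarith
          exact (mul_le_mul_of_nonneg_right (x3.trans x2) hHp.le).trans x4
        · push Not at hbig
          have gl := hh_glue (q := 1 / 2) (by norm_num) (by norm_num) (w1 := ((w + j : ℕ) : ℤ))
            (w2 := 2) (v := 1) (h := n) (by norm_num) (by omega) (by omega)
            (by exact_mod_cast hn)
          have e1 : ((w + j : ℕ) : ℤ) + 2 - 1 = ((w + j + 1 : ℕ) : ℤ) := by push_cast; ring
          rw [e1] at gl
          have g1 : (1 / 2 : ℝ) ^ 2 ≤ H (2 : ℤ) n := H_triv 2 (by positivity)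
          have g2 : (1 / 2 : ℝ) ^ n ≤ H (n : ℤ) 1 := H_triv n (by norm_num)
          have x1 : Real.exp (-(C' / n)) ≤ (1 / 2 : ℝ) ^ (n + 2) := by
            have y1 : ((n : ℝ) + 2) ≤ C' / n := by
              rw [le_div_iff₀ hn0, hC']
              nlinarith
            have y2 : Real.exp (-(C' / n)) ≤ Real.exp (-((n : ℝ) + 2)) :=
              Real.exp_le_exp.mpr (neg_le_neg y1)
            refine y2.trans ?_
            have y3 : Real.exp (-((n : ℝ) + 2)) = Real.exp (-1) ^ (n + 2) := by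
              rw [← Real.exp_nat_mul]
              congr 1
              push_cast
              ring
            rw [y3]
            apply pow_le_pow_left₀ (Real.exp_pos _).le
            rw [Real.exp_neg, one_div]
            apply inv_anti₀ (by norm_num)
            have := Real.add_one_le_exp (1 : ℝ)
            linarith
          calc Real.exp (-(C' / n)) * H ((w + j : ℕ) : ℤ) n
              ≤ (1 / 2 : ℝ) ^ (n + 2) * H ((w + j : ℕ) : ℤ) n :=
                mul_le_mul_of_nonneg_right x1 hHp.le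
            _ = H ((w + j : ℕ) : ℤ) n * (1 / 2 : ℝ) ^ 2 * (1 / 2 : ℝ) ^ n := by ring
            _ ≤ H ((w + j : ℕ) : ℤ) n * H (2 : ℤ) n * H (n : ℤ) 1 := by
                apply mul_le_mul _ g2 (by positivity) (mul_nonneg hHp.le (H_nonneg _ _))
                exact mul_le_mul_of_nonneg_left g1 hHp.le
            _ ≤ _ := gl
      calc Real.exp (-(C' * ((j + 1 : ℕ) : ℝ) / n)) * H w n
          = Real.exp (-(C' / n)) * (Real.exp (-(C' * (j : ℝ) / n)) * H w n) := by
            rw [← mul_assoc, ← Real.exp_add]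
            congr 2
            push_cast
            ring
        _ ≤ Real.exp (-(C' / n)) * H ((w + j : ℕ) : ℤ) n :=
            mul_le_mul_of_nonneg_left i1 (Real.exp_pos _).le
        _ ≤ _ := key
    · have x1 : 1 - c / n ≤ Real.exp (-(c / n)) := by
        have := Real.add_one_le_exp (-(c / n))
        linarith
      calc H ((w + j + 1 : ℕ) : ℤ) n ≤ (1 - c / n) * H ((w + j : ℕ) : ℤ) n := by linarith
        _ ≤ Real.exp (-(c / n)) * H ((w + j : ℕ) : ℤ) n :=
            mul_le_mul_of_nonneg_right x1 hHp.le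
        _ ≤ Real.exp (-(c / n)) * (Real.exp (-(c * (j : ℝ) / n)) * H w n) :=
            mul_le_mul_of_nonneg_left i2 (Real.exp_pos _).le
        _ = _ := by
            rw [← mul_assoc, ← Real.exp_add]
            congr 2
            push_cast
            ring

theorem floor_lim {l : ℝ} (hl : 0 < l) {n : ℕ → ℕ} (hn : Tendsto n atTop atTop) :
    Tendsto (fun i => ((⌊l * n i⌋₊ : ℕ) : ℝ) / n i) atTop (𝓝 l) := by
  have h1 : Tendsto (fun i => (n i : ℝ)) atTop atTop := tendsto_natCast_atTop_atTop.comp hn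
  have h2 := (tendsto_nat_floor_mul_div_atTop (R := ℝ) hl.le).comp h1
  exact h2

theorem scaling {K : ℕ} (hK : 1 ≤ K) {c C : ℝ}
    (h : ∀ w w' n : ℕ, 1 ≤ n → w ≤ w' → n ≤ (2 * K) * w →
      Real.exp (-(C * ((w' : ℝ) - w) / n)) * H w n ≤ H w' n ∧
      H w' n ≤ Real.exp (-(c * ((w' : ℝ) - w) / n)) * H w n)
    {n : ℕ → ℕ} (hn : Tendsto n atTop atTop) {Q : ℝ → ℝ}
    (hQ : ∀ l : ℝ, 0 < l → Tendsto (fun i => H ((⌊l * n i⌋₊ : ℕ) : ℤ) (n i)) atTop (𝓝 (Q l)))
    {l l' : ℝ} (hl : 1 / (K : ℝ) ≤ l) (hll : l ≤ l') :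
    0 < Q l ∧ Q l < 1 ∧ Real.exp (-(C * (l' - l))) * Q l ≤ Q l' ∧
      Q l' ≤ Real.exp (-(c * (l' - l))) * Q l := by
  have hK0 : (0 : ℝ) < K := by exact_mod_cast hK
  have hl0 : 0 < l := lt_of_lt_of_le (by positivity) hl
  have hl'0 : 0 < l' := lt_of_lt_of_le hl0 hll
  have f1 := floor_lim hl0 hn
  have f2 := floor_lim hl'0 hn
  have hev : ∀ᶠ i in atTop, 2 * K ≤ n i ∧ 1 ≤ n i := by
    filter_upwards [hn.eventually_ge_atTop (2 * K), hn.eventually_ge_atTop 1] with i h1 h2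
    exact ⟨h1, h2⟩
  have hcond : ∀ᶠ i in atTop, 1 ≤ n i ∧ ⌊l * n i⌋₊ ≤ ⌊l' * n i⌋₊ ∧
      n i ≤ (2 * K) * ⌊l * n i⌋₊ := by
    filter_upwards [hev] with i hi
    refine ⟨hi.2, ?_, ?_⟩
    · apply Nat.floor_le_floor
      exact mul_le_mul_of_nonneg_right hll (Nat.cast_nonneg _)
    · have h1 : l * n i < (⌊l * n i⌋₊ : ℝ) + 1 := Nat.lt_floor_add_one _
      have h2 : (n i : ℝ) / K ≤ l * n i := by
        rw [div_eq_mul_one_div, mul_comm]
        exact mul_le_mul_of_nonneg_right hl (Nat.cast_nonneg _)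
      have h3 : ((2 * K : ℕ) : ℝ) ≤ n i := by exact_mod_cast hi.1
      push_cast at h3
      have h4 : (n i : ℝ) ≤ 2 * K * (⌊l * n i⌋₊ : ℝ) := by
        have h5 : (n i : ℝ) / K - 1 ≤ (⌊l * n i⌋₊ : ℝ) := by linarith
        have h6 : K * ((n i : ℝ) / K - 1) ≤ K * (⌊l * n i⌋₊ : ℝ) :=
          mul_le_mul_of_nonneg_left h5 hK0.le
        have h7 : K * ((n i : ℝ) / K - 1) = n i - K := by field_simp
        rw [h7] at h6
        linarith
      exact_mod_cast h4
  have hdiff : Tendsto (fun i => (((⌊l' * n i⌋₊ : ℕ) : ℝ) - ((⌊l * n i⌋₊ : ℕ) : ℝ)) / n i) atTop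
      (𝓝 (l' - l)) := by
    have := f2.sub f1
    refine this.congr (fun i => ?_)
    rw [sub_div]
  -- positivity
  have hpos : 0 < Q l := by
    obtain ⟨δ, hδ, -, hr⟩ := rswK (⌈l⌉₊ + 1)
    have hge : ∀ᶠ i in atTop, δ ≤ H ((⌊l * n i⌋₊ : ℕ) : ℤ) (n i) := by
      filter_upwards [hcond] with i hi
      apply hr
      · by_contra hlt
        have : ⌊l * n i⌋₊ = 0 := by omega
        rw [this] at hi
        omega
      · have h1 : (⌊l * n i⌋₊ : ℝ) ≤ l * n i := Nat.floor_le (by positivity)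
        have h2 : l ≤ (⌈l⌉₊ : ℝ) := Nat.le_ceil _
        have h3 : (⌊l * n i⌋₊ : ℝ) ≤ (((⌈l⌉₊ + 1) * (n i + 1) : ℕ) : ℝ) := by
          push_cast
          have h4 : l * n i ≤ (⌈l⌉₊ : ℝ) * n i :=
            mul_le_mul_of_nonneg_right h2 (Nat.cast_nonneg _)
          have h5 : (0 : ℝ) ≤ n i := Nat.cast_nonneg _
          have h6 : (0 : ℝ) ≤ (⌈l⌉₊ : ℝ) := Nat.cast_nonneg _
          nlinarith
        exact_mod_cast h3
    exact lt_of_lt_of_le hδ (ge_of_tendsto (hQ l hl0) hge)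
  have hlt1 : Q l < 1 := by
    obtain ⟨δ, hδ, -, hr⟩ := rswK (4 * K)
    have hge : ∀ᶠ i in atTop, H ((⌊l * n i⌋₊ : ℕ) : ℤ) (n i) ≤ 1 - δ := by
      filter_upwards [hcond] with i hi
      have hw : 1 ≤ ⌊l * n i⌋₊ := by
        by_contra hlt
        have : ⌊l * n i⌋₊ = 0 := by omega
        rw [this] at hi
        omega
      have h1 := hr (n i + 1) (⌊l * n i⌋₊ - 1) (by omega) (by
        have h2 : ⌊l * n i⌋₊ - 1 + 1 = ⌊l * n i⌋₊ := by omega
        rw [h2]
        have h3 := hi.2.2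
        have h4 : 1 ≤ 2 * K * ⌊l * n i⌋₊ := by nlinarith
        calc n i + 1 ≤ 2 * K * ⌊l * n i⌋₊ + 2 * K * ⌊l * n i⌋₊ := by omega
          _ = 4 * K * ⌊l * n i⌋₊ := by ring)
      rw [← one_sub_H hw] at h1
      linarith
    have := le_of_tendsto (hQ l hl0) hge
    linarith
  refine ⟨hpos, hlt1, ?_, ?_⟩
  · refine le_of_tendsto_of_tendsto (f := fun i =>
      Real.exp (-(C * (((⌊l' * n i⌋₊ : ℕ) : ℝ) - ((⌊l * n i⌋₊ : ℕ) : ℝ)) / n i)) *
        H ((⌊l * n i⌋₊ : ℕ) : ℤ) (n i)) ?_ (hQ l' hl'0) ?_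
    · apply Tendsto.mul _ (hQ l hl0)
      have h1 := (hdiff.const_mul C).neg
      refine ((Real.continuous_exp.tendsto _).comp h1).congr (fun i => ?_)
      show Real.exp (-(C * ((((⌊l' * n i⌋₊ : ℕ) : ℝ) - ((⌊l * n i⌋₊ : ℕ) : ℝ)) / n i))) = _
      rw [mul_div_assoc]
    · filter_upwards [hcond] with i hi
      exact (h _ _ _ hi.1 hi.2.1 hi.2.2).1
  · refine le_of_tendsto_of_tendsto (g := fun i =>
      Real.exp (-(c * (((⌊l' * n i⌋₊ : ℕ) : ℝ) - ((⌊l * n i⌋₊ : ℕ) : ℝ)) / n i)) *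
        H ((⌊l * n i⌋₊ : ℕ) : ℤ) (n i)) (hQ l' hl'0) ?_ ?_
    · apply Tendsto.mul _ (hQ l hl0)
      have h1 := (hdiff.const_mul c).neg
      refine ((Real.continuous_exp.tendsto _).comp h1).congr (fun i => ?_)
      show Real.exp (-(c * ((((⌊l' * n i⌋₊ : ℕ) : ℝ) - ((⌊l * n i⌋₊ : ℕ) : ℝ)) / n i))) = _
      rw [mul_div_assoc]
    · filter_upwards [hcond] with i hi
      exact (h _ _ _ hi.1 hi.2.1 hi.2.2).2

end H362A
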