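import Pool.Agent.H160R2.CV.Sharp

/-!
Connection probabilities of finite sets of vertices for critical bond percolation on the square
lattice: adding a point. Deterministic part and finite volume inequalities.
-/

set_option autoImplicit false

namespace H362P
open Finset H974 Pool.Agent.H160R2.CV
open Pool.Agent.H160R2.CV.Quad

/-- all the vertices of `X` are connected -/
def Cn (X : Finset Vtx) (F : Set Edg) : Prop := ∀ u ∈ X, ∀ v ∈ X, Reach F u v

theorem Cn.mono {X : Finset Vtx} {F G : Set Edg} (h : F ⊆ G) (hF : Cn X F) : Cn X G :=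
  fun u hu v hv => (hF u hu v hv).mono h

theorem Cn_incr (S : Finset Edg) (X : Finset Vtx) : IncrE S (fun F => Cn X (↑F)) :=
  fun _ _ h _ hF => Cn.mono (by exact_mod_cast h) hF

/-- a circuit around `c` in the annulus of radii `R1`, `R2` -/
def CA (c : Vtx) (R1 R2 : ℕ) (F : Finset Edg) : Prop := Circ R1 R2 ((trl (-c.1) (-c.2)).mp F)

theorem CA_incr (S : Finset Edg) (c : Vtx) (R1 R2 : ℕ) : IncrE S (CA c R1 R2) :=
  fun _ _ h _ hF => Circ.mono (LSym.mp_mono _ h) hF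

theorem trl_neg (c u : Vtx) : (trl (-c.1) (-c.2)).ψ u = u - c := by
  obtain ⟨a, b⟩ := u
  rw [trl_ψ]
  rfl

theorem nv_cases' {w c : Vtx} {r : ℕ} (h : r ≤ nv (w - c)) :
    (w - c).1 ≤ -(r : ℤ) ∨ (r : ℤ) ≤ (w - c).1 ∨ (w - c).2 ≤ -(r : ℤ) ∨ (r : ℤ) ≤ (w - c).2 := by
  unfold nv at h
  omega

theorem nv_in {w : Vtx} {r : ℕ} (h : nv w ≤ r) : inR (-(r : ℤ)) r (-(r : ℤ)) r w := by
  unfold nv at h
  unfold inR
  omega

theorem CA_meet {c : Vtx} {R1 R2 : ℕ} (h12 : R1 < R2) {F : Finset Edg} (h : CA c R1 R2 F) :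
    ∃ z : Vtx, ∀ u v : Vtx, nv (u - c) ≤ R1 → R2 ≤ nv (v - c) → Reach (↑F) u v →
      Reach (↑F) u z := by
  obtain ⟨z, hz⟩ := circ_meet (R1 := R1) (R2 := R2) (by positivity) (by exact_mod_cast h12) h
  refine ⟨z + c, fun u v hu hv hr => ?_⟩
  have h1 := (trl (-c.1) (-c.2)).reach hr
  rw [← LSym.coe_mp, trl_neg, trl_neg] at h1
  have hu1 := nv_in hu
  have h12' : (R1 : ℤ) < R2 := by exact_mod_cast h12
  obtain ⟨w, k1, k2, k3⟩ := first_exit (a := -(R2 : ℤ)) (b := R2) (c := -(R2 : ℤ)) (d := R2)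
    (by unfold inR at hu1 ⊢; omega) h1 (nv_cases' hv)
  have h2 := (hz (u - c) w hu1 k2 k3).mono Set.inter_subset_left
  rw [LSym.coe_mp] at h2
  have h3 : (trl (-c.1) (-c.2)).ψ (z + c) = z := by rw [trl_neg]; exact add_sub_cancel_right z c
  rw [← trl_neg, ← h3, LSym.reach_iff] at h2
  exact h2

theorem bo_sub {c : Vtx} {m : ℕ} : bo c m ⊆ boxE (nv c + m) := by
  unfold bo boxE nv
  apply RE_subset <;> omega

theorem trl_bo (c : Vtx) (m : ℕ) : (trl (-c.1) (-c.2)).mp (bo c m) = boxE m := by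
  unfold bo boxE
  rw [trl_RE]
  congr 1 <;> ring

theorem pr_CA {c : Vtx} {n : ℕ} (hn : 1 ≤ n) {S : Finset Edg} (hS : bo c (3 * n) ⊆ S) :
    (1 / 2 : ℝ) ^ 188 ≤ Pr P S (CA c n (3 * n)) := by
  have h0 : Pr P S (CA c n (3 * n)) =
      Pr (fun _ => (1 / 2 : ℝ)) ((trl (-c.1) (-c.2)).mp S) (Circ n ((3 * n : ℕ) : ℤ)) :=
    (LSym.pr (trl (-c.1) (-c.2)) (1 / 2) S _).symm
  rw [h0]
  have hn' : (0 : ℤ) < n := by exact_mod_cast hn
  have hsub : boxE (3 * n) ⊆ (trl (-c.1) (-c.2)).mp S := by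
    rw [← trl_bo c (3 * n)]
    exact LSym.mp_mono _ hS
  refine le_trans ?_ (pr_Circ (q := 1 / 2) (by norm_num) (by norm_num) (R1 := n)
      (R2 := ((3 * n : ℕ) : ℤ)) (by positivity) (by push_cast; omega) hsub)
  have k := rsw_p (p := 1 / 2) le_rfl (by norm_num) (n := n) (w := 2 * ((3 * n : ℕ) : ℤ))
      (h := ((3 * n : ℕ) : ℤ) - n) hn' (by push_cast; omega) (by push_cast; omega)
      (by push_cast; omega)
  calc (1 / 2 : ℝ) ^ 188 = ((1 / 2 : ℝ) ^ 47) ^ 4 := by norm_num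
      _ ≤ _ := pow_le_pow_left₀ (by positivity) k 4

/-! ### removing wired edges -/

theorem hit_or {G B : Set Edg} {T : Vtx → Prop} (hB : ∀ e ∈ B, T (src e) ∧ T (tgt e))
    {u v : Vtx} (h : Reach (G ∪ B) u v) : Reach G u v ∨ ∃ w, T w ∧ Reach G u w := by
  induction h with
  | refl => exact Or.inl (Reach.refl _ _)
  | @tail b d _ hs ih =>
    rcases ih with ih | ih
    · obtain ⟨e, he | he, hc⟩ := hs
      · exact Or.inl (ih.trans (Adj.reach ⟨e, he, hc⟩))
      · right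
        refine ⟨b, ?_, ih⟩
        rcases hc with ⟨h1, -⟩ | ⟨-, h2⟩
        · rw [← h1]; exact (hB e he).1
        · rw [← h2]; exact (hB e he).2
    · exact Or.inr ih

theorem unwire_in {c : Vtx} {R1 R2 : ℕ} (h12 : R1 < R2) {F : Finset Edg} (h : CA c R1 R2 F)
    {A : Set Edg} (hA : ∀ e ∈ A, nv (src e - c) ≤ R1 ∧ nv (tgt e - c) ≤ R1) {u v : Vtx}
    (hu : R2 ≤ nv (u - c)) (hv : R2 ≤ nv (v - c)) (hr : Reach (↑F ∪ A) u v) : Reach (↑F) u v := by
  obtain ⟨z, hz⟩ := CA_meet h12 h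
  have key : ∀ u v : Vtx, R2 ≤ nv (u - c) → Reach (↑F ∪ A) u v →
      Reach (↑F) u v ∨ Reach (↑F) u z := by
    intro u v hu hr
    rcases hit_or (T := fun w => nv (w - c) ≤ R1) hA hr with h1 | ⟨w, h1, h2⟩
    · exact Or.inl h1
    · exact Or.inr (h2.trans (hz w u h1 hu h2.symm))
  rcases key u v hu hr with h1 | h1
  · exact h1
  · rcases key v u hv hr.symm with h2 | h2
    · exact h2.symm
    · exact h1.trans h2.symm

theorem unwire_out {c : Vtx} {R1 R2 : ℕ} (h12 : R1 < R2) {F : Finset Edg} (h : CA c R1 R2 F)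
    {A : Set Edg} (hA : ∀ e ∈ A, R2 ≤ nv (src e - c) ∧ R2 ≤ nv (tgt e - c)) {u v : Vtx}
    (hu : nv (u - c) ≤ R1) (hv : nv (v - c) ≤ R1) (hr : Reach (↑F ∪ A) u v) :
    Reach (↑F) u v := by
  obtain ⟨z, hz⟩ := CA_meet h12 h
  have key : ∀ u v : Vtx, nv (u - c) ≤ R1 → Reach (↑F ∪ A) u v →
      Reach (↑F) u v ∨ Reach (↑F) u z := by
    intro u v hu hr
    rcases hit_or (T := fun w => R2 ≤ nv (w - c)) hA hr with h1 | ⟨w, h1, h2⟩
    · exact Or.inl h1
    · exact Or.inr (hz u w hu h1 h2)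
  rcases key u v hu hr with h1 | h1
  · exact h1
  · rcases key v u hv hr.symm with h2 | h2
    · exact h2.symm
    · exact h1.trans h2.symm

theorem bo_ends {c : Vtx} {m : ℕ} {e : Edg} (he : e ∈ bo c m) :
    nv (src e - c) ≤ m ∧ nv (tgt e - c) ≤ m := by
  obtain ⟨x, y, _ | _⟩ := e
  · simp only [bo, mem_RE_false] at he
    simp only [src_mk, tgt_false, nv, Prod.fst_sub, Prod.snd_sub]
    omega
  · simp only [bo, mem_RE_true] at he
    simp only [src_mk, tgt_true, nv, Prod.fst_sub, Prod.snd_sub]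
    omega

theorem bo_ends' {c : Vtx} {m : ℕ} {e : Edg} (he : e ∉ bo c m) :
    m ≤ nv (src e - c) ∧ m ≤ nv (tgt e - c) := by
  obtain ⟨x, y, _ | _⟩ := e
  · simp only [bo, mem_RE_false] at he
    simp only [src_mk, tgt_false, nv, Prod.fst_sub, Prod.snd_sub]
    omega
  · simp only [bo, mem_RE_true] at he
    simp only [src_mk, tgt_true, nv, Prod.fst_sub, Prod.snd_sub]
    omega

/-! ### upper bounds -/

/-- decoupling the neighbourhood of the new point -/
theorem add_upper1 {X : Finset Vtx} {x y : Vtx} {a : ℕ} (hy : y ∈ X) (hxy : nv (y - x) = a)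
    (ha : 3 ≤ a) (hX : ∀ u ∈ X, a ≤ nv (u - x)) {S : Finset Edg} (hS : bo x a ⊆ S) :
    Pr P S (fun F => Cn (insert x X) (↑F)) ≤
      2 ^ 188 * (ar (a / 3) * Pr P S (fun F => Cn X (↑F))) := by
  classical
  set r := a / 3 with hr
  have hr1 : 1 ≤ r := by omega
  have h3r : 3 * r ≤ a := by omega
  set B := bo x r with hB
  set S2 := S \ B with hS2
  set E : Finset Edg → Prop := fun F => Cn X (↑(F ∩ S2) ∪ ↑B) with hE
  have hEi : IncA E := by
    intro F G h hF
    refine Cn.mono (Set.union_subset_union_left _ ?_) hF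
    exact_mod_cast Finset.inter_subset_inter_right h
  have hEl : LocE S2 E := by
    intro F
    rw [hE]
    simp only [Finset.inter_assoc, Finset.inter_self]
  have hd : Disjoint B S2 := by rw [hS2]; exact Finset.disjoint_sdiff
  have s1 : Pr P S (fun F => Cn (insert x X) (↑F)) ≤ Pr P S (fun F => LA x r F ∧ E F) := by
    apply Pr_mono Quad.okP
    intro F hFS hF
    refine ⟨LA_of_reach (u := y) (by omega)
      (hF x (Finset.mem_insert_self _ _) y (Finset.mem_insert_of_mem hy)), ?_⟩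
    intro u hu v hv
    refine (hF u (Finset.mem_insert_of_mem hu) v (Finset.mem_insert_of_mem hv)).mono ?_
    intro e he
    by_cases h1 : e ∈ B
    · exact Or.inr (by exact_mod_cast h1)
    · left
      rw [Finset.mem_coe, Finset.mem_inter, hS2, Finset.mem_sdiff]
      exact ⟨Finset.mem_coe.mp he, hFS (Finset.mem_coe.mp he), h1⟩
  have s2 := indep2 S B S2 hd (LA_inc x r) hEi (LA_loc (Finset.Subset.refl _)) hEl
  have s3 : Pr P B (LA x r) ≤ ar r := pr_LA _ _ _
  have s4 : Pr P S2 E ≤ Pr P S E :=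
    Pr_mono_set Quad.okP Finset.sdiff_subset (fun F G h _ => hEi F G h)
  have hcirc : (1 / 2 : ℝ) ^ 188 ≤ Pr P S (CA x r (3 * r)) := by
    apply pr_CA hr1
    refine Finset.Subset.trans ?_ hS
    unfold bo
    apply RE_subset <;> push_cast <;> omega
  have s5 : Pr P S E * Pr P S (CA x r (3 * r)) ≤ Pr P S (fun F => Cn X (↑F)) := by
    refine (Pr_harris Quad.okP (fun F G h _ => hEi F G h) (CA_incr S x r (3 * r))).trans ?_
    apply Pr_mono Quad.okP
    rintro F _ ⟨h1, h2⟩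
    intro u hu v hv
    refine unwire_in (c := x) (R1 := r) (R2 := 3 * r) (by omega) h2 (A := ↑B) ?_
      (h3r.trans (hX u hu)) (h3r.trans (hX v hv)) ?_
    · intro e he
      exact bo_ends (Finset.mem_coe.mp he)
    · refine (h1 u hu v hv).mono (Set.union_subset_union_left _ ?_)
      exact_mod_cast Finset.inter_subset_left
  have p0 : 0 ≤ Pr P S E := Pr_nonneg Quad.okP _ _
  have p1 : 0 ≤ ar r := (ar_pos r).le
  have s6 : Pr P S E ≤ 2 ^ 188 * Pr P S (fun F => Cn X (↑F)) := by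
    have h1 : Pr P S E * (1 / 2 : ℝ) ^ 188 ≤ Pr P S (fun F => Cn X (↑F)) :=
      (mul_le_mul_of_nonneg_left hcirc p0).trans s5
    have h2 : Pr P S E = 2 ^ 188 * (Pr P S E * (1 / 2 : ℝ) ^ 188) := by
      rw [mul_comm (Pr P S E), ← mul_assoc, ← mul_pow]; norm_num
    rw [h2]
    exact mul_le_mul_of_nonneg_left h1 (by positivity)
  calc Pr P S (fun F => Cn (insert x X) (↑F)) ≤ Pr P B (LA x r) * Pr P S2 E := s1.trans s2
    _ ≤ ar r * (2 ^ 188 * Pr P S (fun F => Cn X (↑F))) :=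
        mul_le_mul s3 (s4.trans s6) (Pr_nonneg Quad.okP _ _) p1
    _ = _ := by ring

/-- the new point is far from the others -/
theorem add_upper2 {X : Finset Vtx} {x y : Vtx} {a R : ℕ} (hy : y ∈ X) (hxy : nv (x - y) = a)
    (hR : 1 ≤ R) (haR : 27 * R ≤ a) (hX : ∀ u ∈ X, nv (u - y) ≤ R) {S : Finset Edg}
    (hS : bo y (3 * R) ⊆ S) :
    Pr P S (fun F => Cn (insert x X) (↑F)) ≤
      2 ^ 188 * (ar (a / 3) * (barm (1 / 2) (3 * R) (a / 3) * Pr P S (fun F => Cn X (↑F)))) := by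
  classical
  set n := a / 3 with hn
  have hn1 : 9 * R ≤ n := by omega
  set B := bo y (3 * R) with hB
  set A2 := bo y n \ B with hA2
  set E : Finset Edg → Prop := fun F => Cn X (↑(F ∩ B) ∪ (↑B)ᶜ) with hE
  have hEi : IncA E := by
    intro F G h hF
    refine Cn.mono (Set.union_subset_union_left _ ?_) hF
    exact_mod_cast Finset.inter_subset_inter_right h
  have hEl : LocE B E := by
    intro F
    rw [hE]
    simp only [Finset.inter_assoc, Finset.inter_self]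
  have hCi : IncA (Cr y (3 * R) n) := Cr_inc _ _ _
  have hCl : LocE A2 (Cr y (3 * R) n) := Cr_loc
  have hd2 : Disjoint B A2 := by rw [hA2]; exact Finset.disjoint_sdiff
  have hBn : B ⊆ bo y n := by
    rw [hB]
    unfold bo
    apply RE_subset <;> push_cast <;> omega
  have hd1 : Disjoint (bo x n) (B ∪ A2) := by
    have h1 : B ∪ A2 ⊆ bo y n := Finset.union_subset hBn (by rw [hA2]; exact Finset.sdiff_subset)
    exact Finset.disjoint_of_subset_right h1 (bo_disj (by omega))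
  have hBi : IncA (fun F => E F ∧ Cr y (3 * R) n F) :=
    fun F G h hF => ⟨hEi F G h hF.1, hCi F G h hF.2⟩
  have hBl : LocE (B ∪ A2) (fun F => E F ∧ Cr y (3 * R) n F) := by
    intro F
    show (E F ∧ Cr y (3 * R) n F) ↔ (E (F ∩ (B ∪ A2)) ∧ Cr y (3 * R) n (F ∩ (B ∪ A2)))
    rw [hEl F, hCl F, hEl (F ∩ (B ∪ A2)), hCl (F ∩ (B ∪ A2))]
    have e1 : F ∩ (B ∪ A2) ∩ B = F ∩ B := by
      ext e; simp only [Finset.mem_inter, Finset.mem_union]; tauto
    have e2 : F ∩ (B ∪ A2) ∩ A2 = F ∩ A2 := by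
      ext e; simp only [Finset.mem_inter, Finset.mem_union]; tauto
    rw [e1, e2]
  have s1 : Pr P S (fun F => Cn (insert x X) (↑F)) ≤
      Pr P S (fun F => LA x n F ∧ (E F ∧ Cr y (3 * R) n F)) := by
    apply Pr_mono Quad.okP
    intro F hFS hF
    have hxy' : Reach (↑F) x y := hF x (Finset.mem_insert_self _ _) y (Finset.mem_insert_of_mem hy)
    refine ⟨LA_of_reach (u := y) (by rw [w_nv_comm]; omega) hxy', ?_, ?_⟩
    · intro u hu v hv
      refine (hF u (Finset.mem_insert_of_mem hu) v (Finset.mem_insert_of_mem hv)).mono ?_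
      intro e he
      by_cases h1 : e ∈ B
      · left
        rw [Finset.mem_coe, Finset.mem_inter]
        exact ⟨Finset.mem_coe.mp he, h1⟩
      · exact Or.inr (by simpa using h1)
    · exact Cr_of_far ⟨x, by omega, hxy'.symm⟩
  have s2 := indep2 S (bo x n) (B ∪ A2) hd1 (LA_inc x n) hBi (LA_loc (Finset.Subset.refl _)) hBl
  have s2' := indep2 (B ∪ A2) B A2 hd2 hEi hCi hEl hCl
  have s3 : Pr P (bo x n) (LA x n) ≤ ar n := pr_LA _ _ _
  have s3' : Pr P A2 (Cr y (3 * R) n) ≤ barm (1 / 2) (3 * R) n := pr_Cr _ _ _ _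
  have s4 : Pr P B E ≤ Pr P S E :=
    Pr_mono_set Quad.okP hS (fun F G h _ => hEi F G h)
  have hcirc : (1 / 2 : ℝ) ^ 188 ≤ Pr P S (CA y R (3 * R)) := pr_CA hR hS
  have s5 : Pr P S E * Pr P S (CA y R (3 * R)) ≤ Pr P S (fun F => Cn X (↑F)) := by
    refine (Pr_harris Quad.okP (fun F G h _ => hEi F G h) (CA_incr S y R (3 * R))).trans ?_
    apply Pr_mono Quad.okP
    rintro F _ ⟨h1, h2⟩
    intro u hu v hv
    refine unwire_out (c := y) (R1 := R) (R2 := 3 * R) (by omega) h2 (A := (↑B)ᶜ) ?_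
      (hX u hu) (hX v hv) ?_
    · intro e he
      exact bo_ends' (by simpa using he)
    · refine (h1 u hu v hv).mono (Set.union_subset_union_left _ ?_)
      exact_mod_cast Finset.inter_subset_left
  have p0 : 0 ≤ Pr P S E := Pr_nonneg Quad.okP _ _
  have p1 : 0 ≤ ar n := (ar_pos n).le
  have p2 : 0 ≤ barm (1 / 2) (3 * R) n := barm_nonneg (by norm_num) (by norm_num) _ _
  have s6 : Pr P S E ≤ 2 ^ 188 * Pr P S (fun F => Cn X (↑F)) := by
    have h1 : Pr P S E * (1 / 2 : ℝ) ^ 188 ≤ Pr P S (fun F => Cn X (↑F)) :=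
      (mul_le_mul_of_nonneg_left hcirc p0).trans s5
    have h2 : Pr P S E = 2 ^ 188 * (Pr P S E * (1 / 2 : ℝ) ^ 188) := by
      rw [mul_comm (Pr P S E), ← mul_assoc, ← mul_pow]; norm_num
    rw [h2]
    exact mul_le_mul_of_nonneg_left h1 (by positivity)
  have s7 : Pr P (B ∪ A2) (fun F => E F ∧ Cr y (3 * R) n F) ≤
      (2 ^ 188 * Pr P S (fun F => Cn X (↑F))) * barm (1 / 2) (3 * R) n :=
    s2'.trans (mul_le_mul (s4.trans s6) s3' (Pr_nonneg Quad.okP _ _)
      (p0.trans s6))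
  calc Pr P S (fun F => Cn (insert x X) (↑F))
      ≤ Pr P (bo x n) (LA x n) * Pr P (B ∪ A2) (fun F => E F ∧ Cr y (3 * R) n F) := s1.trans s2
    _ ≤ ar n * ((2 ^ 188 * Pr P S (fun F => Cn X (↑F))) * barm (1 / 2) (3 * R) n) :=
        mul_le_mul s3 s7 (Pr_nonneg Quad.okP _ _) p1
    _ = _ := by ring

end H362P
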