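import Pool.Agent.H362P.Num

/-!
Connection probabilities of finite sets: final form.
-/

set_option autoImplicit false

namespace H362P
open Finset H974 Pool.Agent.H160R2.CV MeasureTheory
open Pool.Agent.H160R2.CV.Quad Pool.Agent.H389R2.CD

/-- sup distance -/
def sd (u v : ℤ × ℤ) : ℕ := max (u.1 - v.1).natAbs (u.2 - v.2).natAbs

theorem sd_eq (u v : ℤ × ℤ) : sd u v = nv (u - v) := rfl

theorem sd_comm (u v : ℤ × ℤ) : sd u v = sd v u := by
  unfold sd
  omega

theorem sd_tri (u v w : ℤ × ℤ) : sd u w ≤ sd u v + sd v w := by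
  unfold sd
  omega

theorem sd_pos {u v : ℤ × ℤ} (h : u ≠ v) : 1 ≤ sd u v := by
  by_contra h1
  apply h
  unfold sd at h1
  have h2 : u.1 = v.1 := by omega
  have h3 : u.2 = v.2 := by omega
  exact Prod.ext h2 h3

/-- `a` is the distance from `x` to `X` -/
def Near (x : ℤ × ℤ) (X : Finset (ℤ × ℤ)) (a : ℕ) : Prop :=
  IsLeast {d : ℕ | ∃ u ∈ X, d = sd x u} a

/-- `D` is the diameter of `X` -/
def Diam (X : Finset (ℤ × ℤ)) (D : ℕ) : Prop :=
  IsGreatest {d : ℕ | ∃ u ∈ X, ∃ v ∈ X, d = sd u v} D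

/-- the factor of the new point -/
noncomputable def fac (a D : ℕ) : ℝ :=
  ((a : ℝ) * max 1 ((a : ℝ) / (max D 1 : ℕ))) ^ (-(5 / 48 : ℝ))

theorem fac_eq (a D : ℕ) : fac a D = ue a (max D 1) ^ (-(5 / 48 : ℝ)) := rfl

theorem fac_nonneg (a D : ℕ) : 0 ≤ fac a D := by
  unfold fac
  apply Real.rpow_nonneg
  apply mul_nonneg (Nat.cast_nonneg _)
  exact le_trans zero_le_one (le_max_left _ _)

theorem add_point (hAr : ArS) : ∃ c C : ℝ, 0 < c ∧ 0 < C ∧
    ∀ (X : Finset (ℤ × ℤ)) (x : ℤ × ℤ) (a D : ℕ), x ∉ X → Near x X a → Diam X D →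
    c * fac a D * PX X ≤ PX (insert x X) ∧ PX (insert x X) ≤ C * fac a D * PX X := by
  obtain ⟨c, hc, hl⟩ := inf_lower hAr
  obtain ⟨C, hC, hu⟩ := inf_upper hAr
  refine ⟨c, C, hc, hC, fun X x a D hx hn hd => ?_⟩
  obtain ⟨⟨y, hy, hay⟩, hmin⟩ := hn
  obtain ⟨⟨p, hp, r, hr, hD⟩, hmax⟩ := hd
  have ha1 : 1 ≤ a := by
    rw [hay]
    apply sd_pos
    rintro rfl
    exact hx hy
  have hyx : nv (y - x) = a := by rw [w_nv_comm, ← sd_eq]; exact hay.symm
  have hR1 : 1 ≤ max D 1 := le_max_right _ _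
  rw [fac_eq]
  constructor
  · have h1 : D ≤ sd p y + sd r y := by
      rw [hD, sd_comm r y]
      exact sd_tri p y r
    rcases Nat.lt_or_ge (sd p y) (sd r y) with h2 | h2
    · refine hl X x y r a (max D 1) hy hr hyx ha1 hR1 ?_
      rw [← sd_eq]
      omega
    · refine hl X x y p a (max D 1) hy hp hyx ha1 hR1 ?_
      rw [← sd_eq]
      omega
  · refine hu X x y a (max D 1) hy hyx ha1 hR1 ?_ ?_
    · intro u hu
      have := hmin ⟨u, hu, rfl⟩
      rw [w_nv_comm, ← sd_eq]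
      exact this
    · intro u hu
      have := hmax ⟨u, hu, y, hy, rfl⟩
      rw [← sd_eq]
      omega

theorem PX_singleton (y : ℤ × ℤ) : PX {y} = 1 := by
  unfold PX
  have : {ω : sqLattice.edgeSet → Bool | Cn {y} (opn ω)} = Set.univ := by
    apply Set.eq_univ_of_forall
    intro ω u hu v hv
    rw [Finset.mem_singleton] at hu hv
    rw [hu, hv]
    exact Reach.refl _ _
  rw [this]
  simp

theorem fac_zero {a : ℕ} (ha : 1 ≤ a) : fac a 0 = (a : ℝ) ^ (-(5 / 24 : ℝ)) := by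
  unfold fac
  have ha0 : (0 : ℝ) < a := by exact_mod_cast ha
  have ha1 : (1 : ℝ) ≤ a := by exact_mod_cast ha
  have h1 : max 1 ((a : ℝ) / ((max 0 1 : ℕ) : ℝ)) = a := by
    rw [show max 0 1 = 1 from rfl, Nat.cast_one, div_one]
    exact max_eq_right ha1
  rw [h1, ← pmul ha0 ha0, ← Real.rpow_add ha0]
  congr 1
  norm_num

theorem two_point (hAr : ArS) : ∃ c C : ℝ, 0 < c ∧ 0 < C ∧ ∀ x y : ℤ × ℤ, x ≠ y →
    c * (sd x y : ℝ) ^ (-(5 / 24 : ℝ)) ≤ PX {x, y} ∧
    PX {x, y} ≤ C * (sd x y : ℝ) ^ (-(5 / 24 : ℝ)) := by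
  obtain ⟨c, C, hc, hC, h⟩ := add_point hAr
  refine ⟨c, C, hc, hC, fun x y hxy => ?_⟩
  have h1 := h {y} x (sd x y) 0 (by simpa using hxy)
    ⟨⟨y, by simp, rfl⟩, by rintro d ⟨u, hu, rfl⟩; rw [Finset.mem_singleton] at hu; rw [hu]⟩
    ⟨⟨y, by simp, y, by simp, by simp [sd]⟩, by
      rintro d ⟨u, hu, v, hv, rfl⟩
      rw [Finset.mem_singleton] at hu hv
      rw [hu, hv]
      simp [sd]⟩
  rw [PX_singleton, mul_one, mul_one, fac_zero (sd_pos hxy)] at h1
  exact h1

theorem three_aux (hAr : ArS) : ∃ c C : ℝ, 0 < c ∧ 0 < C ∧ ∀ x y z : ℤ × ℤ, x ≠ y → y ≠ z →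
    z ≠ x → sd x y ≤ sd y z → sd x y ≤ sd z x →
    c * ((sd x y : ℝ) * sd y z * sd z x) ^ (-(5 / 48 : ℝ)) ≤ PX {x, y, z} ∧
    PX {x, y, z} ≤ C * ((sd x y : ℝ) * sd y z * sd z x) ^ (-(5 / 48 : ℝ)) := by
  obtain ⟨c, C, hc, hC, h⟩ := add_point hAr
  obtain ⟨c', C', hc', hC', h'⟩ := two_point hAr
  refine ⟨c * c', C * C' * 2, by positivity, by positivity, ?_⟩
  intro x y z hxy hyz hzx h1 h2
  set d := sd x y with hd
  set b := sd y z with hb
  set e := sd z x with he
  have hd1 : 1 ≤ d := sd_pos hxy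
  set a := min b e with ha
  have ha1 : d ≤ a := le_min h1 h2
  have hset : ({x, y, z} : Finset (ℤ × ℤ)) = insert z {x, y} := by
    ext w; simp only [Finset.mem_insert, Finset.mem_singleton]; tauto
  have hnear : Near z {x, y} a := by
    constructor
    · rcases min_choice b e with h3 | h3
      · exact ⟨y, by simp, by rw [ha, h3, hb, sd_comm]⟩
      · exact ⟨x, by simp, by rw [ha, h3]⟩
    · rintro q ⟨u, hu, rfl⟩
      rw [Finset.mem_insert, Finset.mem_singleton] at hu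
      rcases hu with rfl | rfl
      · exact min_le_right _ _
      · rw [sd_comm]; exact min_le_left _ _
  have hdiam : Diam {x, y} d := by
    constructor
    · exact ⟨x, by simp, y, by simp, rfl⟩
    · rintro q ⟨u, hu, v, hv, rfl⟩
      rw [Finset.mem_insert, Finset.mem_singleton] at hu hv
      rcases hu with rfl | rfl <;> rcases hv with rfl | rfl
      · simp [sd]
      · exact le_rfl
      · rw [sd_comm]
      · simp [sd]
  obtain ⟨l1, l2⟩ := h {x, y} z a d (by simp [hzx, Ne.symm hyz]) hnear hdiam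
  obtain ⟨m1, m2⟩ := h' x y hxy
  rw [hset]
  have hd0 : (0 : ℝ) < d := by exact_mod_cast hd1
  have ha0 : (0 : ℝ) < a := by exact_mod_cast (by omega : 0 < a)
  have hda : (d : ℝ) ≤ a := by exact_mod_cast ha1
  have hf : fac a d = ((a : ℝ) * (a / d)) ^ (-(5 / 48 : ℝ)) := by
    unfold fac
    have e1 : max d 1 = d := by omega
    rw [e1]
    congr 2
    apply max_eq_right
    rw [le_div_iff₀ hd0]
    linarith
  have hd2 : (d : ℝ) ^ (-(5 / 24 : ℝ)) = ((d : ℝ) * d) ^ (-(5 / 48 : ℝ)) := by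
    rw [← pmul hd0 hd0, ← Real.rpow_add hd0]
    congr 1
    norm_num
  have hprod : fac a d * (d : ℝ) ^ (-(5 / 24 : ℝ)) = ((a : ℝ) * a * d) ^ (-(5 / 48 : ℝ)) := by
    rw [hf, hd2, pmul (by positivity) (by positivity)]
    congr 1
    field_simp
  have hfn := fac_nonneg a d
  -- comparison of the products
  have hb0 : (0 : ℝ) < b := by exact_mod_cast (by omega : 0 < b)
  have he0 : (0 : ℝ) < e := by exact_mod_cast (by omega : 0 < e)
  have hab : (a : ℝ) ≤ b := by exact_mod_cast min_le_left b e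
  have hae : (a : ℝ) ≤ e := by exact_mod_cast min_le_right b e
  have hbe : (b : ℝ) * e ≤ 2 * (a * a) := by
    have t1 : b ≤ d + e := by
      have := sd_tri y x z
      rw [sd_comm y x, sd_comm x z] at this
      exact this
    have t2 : e ≤ b + d := by
      have := sd_tri z y x
      rw [sd_comm z y, sd_comm y x] at this
      exact this
    rcases min_choice b e with h3 | h3
    · have e1 : (a : ℝ) = b := by rw [ha, h3]
      have : (e : ℝ) ≤ b + d := by exact_mod_cast t2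
      nlinarith
    · have e1 : (a : ℝ) = e := by rw [ha, h3]
      have : (b : ℝ) ≤ d + e := by exact_mod_cast t1
      nlinarith
  constructor
  · have k1 : ((d : ℝ) * b * e) ^ (-(5 / 48 : ℝ)) ≤ ((a : ℝ) * a * d) ^ (-(5 / 48 : ℝ)) := by
      apply Real.rpow_le_rpow_of_nonpos (by positivity) _ (by norm_num)
      nlinarith [mul_le_mul hab hae ha0.le hb0.le]
    calc c * c' * ((d : ℝ) * b * e) ^ (-(5 / 48 : ℝ))
        ≤ c * c' * ((a : ℝ) * a * d) ^ (-(5 / 48 : ℝ)) :=
          mul_le_mul_of_nonneg_left k1 (by positivity)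
      _ = c * fac a d * (c' * (d : ℝ) ^ (-(5 / 24 : ℝ))) := by rw [← hprod]; ring
      _ ≤ c * fac a d * PX {x, y} := mul_le_mul_of_nonneg_left m1 (by positivity)
      _ ≤ _ := l1
  · have k1 : ((a : ℝ) * a * d) ^ (-(5 / 48 : ℝ)) ≤
        2 * ((d : ℝ) * b * e) ^ (-(5 / 48 : ℝ)) := by
      apply pw (by positivity) (by positivity) (by norm_num)
      nlinarith
    calc PX (insert z {x, y}) ≤ C * fac a d * PX {x, y} := l2
      _ ≤ C * fac a d * (C' * (d : ℝ) ^ (-(5 / 24 : ℝ))) :=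
          mul_le_mul_of_nonneg_left m2 (by positivity)
      _ = C * C' * ((a : ℝ) * a * d) ^ (-(5 / 48 : ℝ)) := by rw [← hprod]; ring
      _ ≤ C * C' * (2 * ((d : ℝ) * b * e) ^ (-(5 / 48 : ℝ))) :=
          mul_le_mul_of_nonneg_left k1 (by positivity)
      _ = _ := by ring

theorem three_point (hAr : ArS) : ∃ c C : ℝ, 0 < c ∧ 0 < C ∧ ∀ x y z : ℤ × ℤ, x ≠ y → y ≠ z →
    z ≠ x →
    c * ((sd x y : ℝ) * sd y z * sd z x) ^ (-(5 / 48 : ℝ)) ≤ PX {x, y, z} ∧
    PX {x, y, z} ≤ C * ((sd x y : ℝ) * sd y z * sd z x) ^ (-(5 / 48 : ℝ)) := by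
  obtain ⟨c, C, hc, hC, h⟩ := three_aux hAr
  refine ⟨c, C, hc, hC, fun x y z hxy hyz hzx => ?_⟩
  by_cases h1 : sd x y ≤ sd y z ∧ sd x y ≤ sd z x
  · exact h x y z hxy hyz hzx h1.1 h1.2
  · by_cases h2 : sd y z ≤ sd z x ∧ sd y z ≤ sd x y
    · have := h y z x hyz hzx hxy h2.1 h2.2
      have e1 : ({y, z, x} : Finset (ℤ × ℤ)) = {x, y, z} := by
        ext w; simp only [Finset.mem_insert, Finset.mem_singleton]; tauto
      rw [e1] at this
      rw [show (sd x y : ℝ) * sd y z * sd z x = (sd y z : ℝ) * sd z x * sd x y by ring]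
      exact this
    · have := h z x y hzx hxy hyz (by omega) (by omega)
      have e1 : ({z, x, y} : Finset (ℤ × ℤ)) = {x, y, z} := by
        ext w; simp only [Finset.mem_insert, Finset.mem_singleton]; tauto
      rw [e1] at this
      rw [show (sd x y : ℝ) * sd y z * sd z x = (sd z x : ℝ) * sd x y * sd y z by ring]
      exact this

/-- `k + 1` points -/
theorem k_point {c C : ℝ} (hc : 0 < c) (hC : 0 < C)
    (h : ∀ (X : Finset (ℤ × ℤ)) (x : ℤ × ℤ) (a D : ℕ), x ∉ X → Near x X a → Diam X D →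
      c * fac a D * PX X ≤ PX (insert x X) ∧ PX (insert x X) ≤ C * fac a D * PX X)
    (k : ℕ) (x : ℕ → ℤ × ℤ) (a D : ℕ → ℕ)
    (hinj : ∀ i < k, x (i + 1) ∉ (range (i + 1)).image x)
    (ha : ∀ i < k, Near (x (i + 1)) ((range (i + 1)).image x) (a i))
    (hD : ∀ i < k, Diam ((range (i + 1)).image x) (D i)) :
    ∏ i ∈ range k, (c * fac (a i) (D i)) ≤ PX ((range (k + 1)).image x) ∧
    PX ((range (k + 1)).image x) ≤ ∏ i ∈ range k, (C * fac (a i) (D i)) := by
  induction k with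
  | zero =>
    have e : (range (0 + 1)).image x = {x 0} := by simp
    rw [e, PX_singleton]
    simp
  | succ k ih =>
    obtain ⟨i1, i2⟩ := ih (fun i hi => hinj i (by omega)) (fun i hi => ha i (by omega))
      (fun i hi => hD i (by omega))
    obtain ⟨j1, j2⟩ := h _ _ _ _ (hinj k (by omega)) (ha k (by omega)) (hD k (by omega))
    have e : (range (k + 1 + 1)).image x = insert (x (k + 1)) ((range (k + 1)).image x) := by
      rw [Finset.range_add_one, Finset.image_insert]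
    rw [e, Finset.prod_range_succ, Finset.prod_range_succ]
    have hf := fac_nonneg (a k) (D k)
    constructor
    · calc (∏ i ∈ range k, (c * fac (a i) (D i))) * (c * fac (a k) (D k))
          ≤ PX ((range (k + 1)).image x) * (c * fac (a k) (D k)) :=
            mul_le_mul_of_nonneg_right i1 (by positivity)
        _ = c * fac (a k) (D k) * PX ((range (k + 1)).image x) := by ring
        _ ≤ _ := j1
    · calc PX (insert (x (k + 1)) ((range (k + 1)).image x))
          ≤ C * fac (a k) (D k) * PX ((range (k + 1)).image x) := j2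
        _ = PX ((range (k + 1)).image x) * (C * fac (a k) (D k)) := by ring
        _ ≤ _ := mul_le_mul_of_nonneg_right i2 (by positivity)

end H362P
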