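import Pool.Agent.H362P.Base
import Pool.Agent.H389R2.CD.Hit

/-!
Adding a point: lower bounds, and both bounds with exponents.
-/

set_option autoImplicit false

namespace H362P
open Finset H974 Pool.Agent.H160R2.CV
open Pool.Agent.H160R2.CV.Quad Pool.Agent.H389R2.CD

theorem pr_Ex1_ge {c : Vtx} {r n : ℕ} {S : Finset Edg} (hS : bo c n ⊆ S) :
    barm (1 / 2) r n ≤ Pr P S (Ex1 c r n) := by
  have h0 : Pr P S (Ex1 c r n) =
      Pr (fun _ => (1 / 2 : ℝ)) ((trl (-c.1) (-c.2)).mp S) (BArm r n) :=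
    (LSym.pr (trl (-c.1) (-c.2)) (1 / 2) S _).symm
  rw [h0]
  have hsub : boxE n ⊆ (trl (-c.1) (-c.2)).mp S := by
    rw [← trl_bo c n]
    exact LSym.mp_mono _ hS
  unfold barm
  apply le_of_eq
  symm
  apply Pr_local hsub
  intro F _
  exact BArm_local (Finset.Subset.refl _)

theorem Ex1_incr (S : Finset Edg) (c : Vtx) (r n : ℕ) : IncrE S (Ex1 c r n) :=
  fun _ _ h _ hF => BArm.mono (LSym.mp_mono _ h) hF

theorem Ex1_out {c : Vtx} {r n : ℕ} {F : Finset Edg} (h : Ex1 c r n F) :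
    ∃ u w : Vtx, nv (u - c) ≤ r ∧ n ≤ nv (w - c) ∧ Reach (↑F) u w := by
  obtain ⟨u, v, hu, hv, hr⟩ := h
  have h2 := hr.mono Set.inter_subset_left
  have h3 : ∀ z : Vtx, (trl (-c.1) (-c.2)).ψ (z + c) = z := by
    intro z; rw [trl_neg]; exact add_sub_cancel_right z c
  rw [LSym.coe_mp, ← h3 u, ← h3 v, LSym.reach_iff] at h2
  refine ⟨u + c, v + c, ?_, ?_, h2⟩
  · rw [add_sub_cancel_right]
    unfold inR at hu
    unfold nv
    omega
  · rw [add_sub_cancel_right]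
    unfold onB inR at hv
    unfold nv
    omega

theorem ar_split {r n : ℕ} (hrn : r ≤ n) : ar n ≤ ar r * barm (1 / 2) r n := by
  have h1 : ar n ≤ Pr P (boxE n) (fun F => LA (0, 0) r F ∧ Cr (0, 0) r n F) := by
    have e : ar n = Pr P (boxE n) (Arm n) := rfl
    rw [e]
    apply Pr_mono Quad.okP
    rintro F _ ⟨v, hv, hr⟩
    have hf : Far (0, 0) n F := by
      refine ⟨v, ?_, hr.mono Set.inter_subset_left⟩
      unfold onB inR at hv
      unfold nv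
      simp only [Prod.fst_sub, Prod.snd_sub]
      omega
    exact ⟨LA_of_far hrn hf, Cr_of_far hf⟩
  have hd : Disjoint (bo (0, 0) r) (bo (0, 0) n \ bo (0, 0) r) := Finset.disjoint_sdiff
  have h2 := indep2 (boxE n) _ _ hd (LA_inc (0, 0) r) (Cr_inc (0, 0) r n)
    (LA_loc (Finset.Subset.refl _)) Cr_loc
  refine h1.trans (h2.trans ?_)
  exact mul_le_mul (pr_LA _ _ _) (pr_Cr _ _ _ _) (Pr_nonneg Quad.okP _ _) (ar_pos r).le

theorem nv_tri (u v w : Vtx) : nv (u - w) ≤ nv (u - v) + nv (v - w) := by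
  unfold nv
  simp only [Prod.fst_sub, Prod.snd_sub]
  omega

theorem nv_self (u : Vtx) : nv (u - u) = 0 := by
  rw [sub_self]; rfl

theorem Cn_insert {X : Finset Vtx} {x y : Vtx} {F : Set Edg} (hX : Cn X F) (hy : y ∈ X)
    (hxy : Reach F x y) : Cn (insert x X) F := by
  have key : ∀ u ∈ insert x X, Reach F u y := by
    intro u hu
    rcases Finset.mem_insert.mp hu with rfl | hu
    · exact hxy
    · exact hX u hu y hy
  intro u hu v hv
  exact (key u hu).trans (key v hv).symm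

theorem add_lower1 {X : Finset Vtx} {x y : Vtx} {a : ℕ} (hy : y ∈ X) (hxy : nv (y - x) = a)
    (ha : 1 ≤ a) {S : Finset Edg} (hS : boxE (nv x + nv y + 8 * a) ⊆ S) :
    (1 / 2 : ℝ) ^ 188 * (ar (8 * a) * ar (8 * a)) * Pr P S (fun F => Cn X (↑F)) ≤
      Pr P S (fun F => Cn (insert x X) (↑F)) := by
  have h1 : (1 / 2 : ℝ) ^ 188 ≤ Pr P S (CA x (2 * a) (3 * (2 * a))) :=
    pr_CA (by omega) (bo_sub.trans ((boxE_mono (by omega)).trans hS))
  have h2 : ar (8 * a) ≤ Pr P S (Far x (8 * a)) :=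
    far_ge (n := nv x) ((boxE_mono (by omega)).trans hS) (InfAux.mem_bx_nv x)
  have h3 : ar (8 * a) ≤ Pr P S (Far y (8 * a)) :=
    far_ge (n := nv y) ((boxE_mono (by omega)).trans hS) (InfAux.mem_bx_nv y)
  have p0 : 0 ≤ Pr P S (fun F => Cn X (↑F)) := Pr_nonneg Quad.okP _ _
  have pa : 0 ≤ ar (8 * a) := (ar_pos _).le
  have i1 := Pr_harris Quad.okP (CA_incr S x (2 * a) (3 * (2 * a))) (TwoAux.far_incr S x (8 * a))
  have i2 := Pr_harris Quad.okP (S := S)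
    (A := fun F => CA x (2 * a) (3 * (2 * a)) F ∧ Far x (8 * a) F)
    (B := Far y (8 * a)) (fun F G h h' hF => ⟨CA_incr S _ _ _ F G h h' hF.1,
      TwoAux.far_incr S _ _ F G h h' hF.2⟩) (TwoAux.far_incr S y (8 * a))
  have i3 := Pr_harris Quad.okP (S := S)
    (A := fun F => (CA x (2 * a) (3 * (2 * a)) F ∧ Far x (8 * a) F) ∧ Far y (8 * a) F)
    (B := fun F => Cn X (↑F)) (fun F G h h' hF => ⟨⟨CA_incr S _ _ _ F G h h' hF.1.1,
      TwoAux.far_incr S _ _ F G h h' hF.1.2⟩, TwoAux.far_incr S _ _ F G h h' hF.2⟩) (Cn_incr S X)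
  have i4 : Pr P S (fun F => ((CA x (2 * a) (3 * (2 * a)) F ∧ Far x (8 * a) F) ∧
      Far y (8 * a) F) ∧ Cn X (↑F)) ≤ Pr P S (fun F => Cn (insert x X) (↑F)) := by
    apply Pr_mono Quad.okP
    rintro F _ ⟨⟨⟨k1, u, hu, hxu⟩, v, hv, hyv⟩, k4⟩
    obtain ⟨z, hz⟩ := CA_meet (by omega) k1
    have m1 := hz x u (by rw [nv_self]; omega) (by omega) hxu
    have t1 := nv_tri v x y
    have t2 := w_nv_comm x y
    have m2 := hz y v (by omega) (by omega) hyv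
    exact Cn_insert k4 hy (m1.trans m2.symm)
  calc (1 / 2 : ℝ) ^ 188 * (ar (8 * a) * ar (8 * a)) * Pr P S (fun F => Cn X (↑F))
      = ((1 / 2 : ℝ) ^ 188 * ar (8 * a)) * ar (8 * a) * Pr P S (fun F => Cn X (↑F)) := by ring
    _ ≤ (Pr P S (CA x (2 * a) (3 * (2 * a))) * Pr P S (Far x (8 * a))) *
          Pr P S (Far y (8 * a)) * Pr P S (fun F => Cn X (↑F)) := by
        have j1 := mul_le_mul h1 h2 pa (Pr_nonneg Quad.okP _ _)
        have j2 := mul_le_mul j1 h3 pa (mul_nonneg (Pr_nonneg Quad.okP _ _)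
          (Pr_nonneg Quad.okP _ _))
        exact mul_le_mul_of_nonneg_right j2 p0
    _ ≤ _ * Pr P S (Far y (8 * a)) * Pr P S (fun F => Cn X (↑F)) := by
        apply mul_le_mul_of_nonneg_right _ p0
        exact mul_le_mul_of_nonneg_right i1 (Pr_nonneg Quad.okP _ _)
    _ ≤ _ * Pr P S (fun F => Cn X (↑F)) := mul_le_mul_of_nonneg_right i2 p0
    _ ≤ _ := i3
    _ ≤ _ := i4

theorem add_lower2 {X : Finset Vtx} {x y z0 : Vtx} {a q : ℕ} (hy : y ∈ X) (hz0 : z0 ∈ X)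
    (hxy : nv (y - x) = a) (hq : 1 ≤ q) (hqa : q ≤ a) (hfar : 3 * q ≤ nv (z0 - y))
    {S : Finset Edg} (hS : boxE (nv x + nv y + 8 * a) ⊆ S) :
    ((1 / 2 : ℝ) ^ 188 * (1 / 2 : ℝ) ^ 188) * (ar (8 * a) * barm (1 / 2) q (8 * a)) *
      Pr P S (fun F => Cn X (↑F)) ≤ Pr P S (fun F => Cn (insert x X) (↑F)) := by
  set A1 := CA x (2 * a) (3 * (2 * a)) with hA1
  set A2 := Far x (8 * a) with hA2
  set A3 := CA y q (3 * q) with hA3
  set A4 := Ex1 y q (8 * a) with hA4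
  have h1 : (1 / 2 : ℝ) ^ 188 ≤ Pr P S A1 :=
    pr_CA (by omega) (bo_sub.trans ((boxE_mono (by omega)).trans hS))
  have h2 : ar (8 * a) ≤ Pr P S A2 :=
    far_ge (n := nv x) ((boxE_mono (by omega)).trans hS) (InfAux.mem_bx_nv x)
  have h3 : (1 / 2 : ℝ) ^ 188 ≤ Pr P S A3 :=
    pr_CA (by omega) (bo_sub.trans ((boxE_mono (by omega)).trans hS))
  have h4 : barm (1 / 2) q (8 * a) ≤ Pr P S A4 :=
    pr_Ex1_ge (bo_sub.trans ((boxE_mono (by omega)).trans hS))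
  have n1 : IncrE S A1 := CA_incr S _ _ _
  have n2 : IncrE S A2 := TwoAux.far_incr S _ _
  have n3 : IncrE S A3 := CA_incr S _ _ _
  have n4 : IncrE S A4 := Ex1_incr S _ _ _
  have p0 : 0 ≤ Pr P S (fun F => Cn X (↑F)) := Pr_nonneg Quad.okP _ _
  have pa : 0 ≤ ar (8 * a) := (ar_pos _).le
  have pb : 0 ≤ barm (1 / 2) q (8 * a) := barm_nonneg (by norm_num) (by norm_num) _ _
  have q1 : 0 ≤ Pr P S A1 := Pr_nonneg Quad.okP _ _
  have q2 : 0 ≤ Pr P S A2 := Pr_nonneg Quad.okP _ _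
  have q3 : 0 ≤ Pr P S A3 := Pr_nonneg Quad.okP _ _
  have q4 : 0 ≤ Pr P S A4 := Pr_nonneg Quad.okP _ _
  have i1 := Pr_harris Quad.okP n1 n2
  have i2 := Pr_harris Quad.okP (S := S) (A := fun F => A1 F ∧ A2 F) (B := A3)
    (fun F G h h' hF => ⟨n1 F G h h' hF.1, n2 F G h h' hF.2⟩) n3
  have i3 := Pr_harris Quad.okP (S := S) (A := fun F => (A1 F ∧ A2 F) ∧ A3 F) (B := A4)
    (fun F G h h' hF => ⟨⟨n1 F G h h' hF.1.1, n2 F G h h' hF.1.2⟩, n3 F G h h' hF.2⟩) n4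
  have i4 := Pr_harris Quad.okP (S := S) (A := fun F => ((A1 F ∧ A2 F) ∧ A3 F) ∧ A4 F)
    (B := fun F => Cn X (↑F))
    (fun F G h h' hF => ⟨⟨⟨n1 F G h h' hF.1.1.1, n2 F G h h' hF.1.1.2⟩, n3 F G h h' hF.1.2⟩,
      n4 F G h h' hF.2⟩) (Cn_incr S X)
  have i5 : Pr P S (fun F => (((A1 F ∧ A2 F) ∧ A3 F) ∧ A4 F) ∧ Cn X (↑F)) ≤
      Pr P S (fun F => Cn (insert x X) (↑F)) := by
    apply Pr_mono Quad.okP
    rintro F _ ⟨⟨⟨⟨k1, t, ht, hxt⟩, k3⟩, k4⟩, k5⟩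
    obtain ⟨z, hz⟩ := CA_meet (by omega) k1
    obtain ⟨z', hz'⟩ := CA_meet (by omega) k3
    obtain ⟨u, w, hu, hw, huw⟩ := Ex1_out k4
    have m1 := hz x t (by rw [nv_self]; omega) (by omega) hxt
    have t1 := nv_tri u y x
    have t2 := nv_tri w x y
    have t3 := w_nv_comm x y
    have m2 := hz u w (by omega) (by omega) huw
    have m3 := hz' u w hu (by omega) huw
    have m4 := hz' y z0 (by rw [nv_self]; omega) (by omega) (k5 y hy z0 hz0)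
    exact Cn_insert k5 hy ((m1.trans m2.symm).trans (m3.trans m4.symm))
  have j1 : (1 / 2 : ℝ) ^ 188 * ar (8 * a) ≤ Pr P S A1 * Pr P S A2 := mul_le_mul h1 h2 pa q1
  have j2 : (1 / 2 : ℝ) ^ 188 * ar (8 * a) * (1 / 2 : ℝ) ^ 188 ≤
      Pr P S A1 * Pr P S A2 * Pr P S A3 := mul_le_mul j1 h3 (by positivity) (mul_nonneg q1 q2)
  have j3 : (1 / 2 : ℝ) ^ 188 * ar (8 * a) * (1 / 2 : ℝ) ^ 188 * barm (1 / 2) q (8 * a) ≤
      Pr P S A1 * Pr P S A2 * Pr P S A3 * Pr P S A4 :=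
    mul_le_mul j2 h4 pb (mul_nonneg (mul_nonneg q1 q2) q3)
  calc ((1 / 2 : ℝ) ^ 188 * (1 / 2 : ℝ) ^ 188) * (ar (8 * a) * barm (1 / 2) q (8 * a)) *
        Pr P S (fun F => Cn X (↑F))
      = ((1 / 2 : ℝ) ^ 188 * ar (8 * a) * (1 / 2 : ℝ) ^ 188 * barm (1 / 2) q (8 * a)) *
          Pr P S (fun F => Cn X (↑F)) := by ring
    _ ≤ (Pr P S A1 * Pr P S A2 * Pr P S A3 * Pr P S A4) * Pr P S (fun F => Cn X (↑F)) :=
        mul_le_mul_of_nonneg_right j3 p0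
    _ ≤ (Pr P S (fun F => A1 F ∧ A2 F) * Pr P S A3 * Pr P S A4) *
          Pr P S (fun F => Cn X (↑F)) := by
        apply mul_le_mul_of_nonneg_right _ p0
        apply mul_le_mul_of_nonneg_right _ q4
        exact mul_le_mul_of_nonneg_right i1 q3
    _ ≤ (Pr P S (fun F => (A1 F ∧ A2 F) ∧ A3 F) * Pr P S A4) *
          Pr P S (fun F => Cn X (↑F)) := by
        apply mul_le_mul_of_nonneg_right _ p0
        exact mul_le_mul_of_nonneg_right i2 q4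
    _ ≤ Pr P S (fun F => ((A1 F ∧ A2 F) ∧ A3 F) ∧ A4 F) * Pr P S (fun F => Cn X (↑F)) :=
        mul_le_mul_of_nonneg_right i3 p0
    _ ≤ _ := i4
    _ ≤ _ := i5

end H362P
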