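import Pool.Agent.H362P.Low

/-!
Adding a point: both bounds with the exponent `5 / 48`, finite and infinite volume.
-/

set_option autoImplicit false

namespace H362P
open Finset H974 Pool.Agent.H160R2.CV MeasureTheory
open Pool.Agent.H160R2.CV.Quad Pool.Agent.H389R2.CD

/-- comparison of negative powers -/
theorem pw {t u k : ℝ} (ht : 0 < t) (hu : 0 < u) (hk : 1 ≤ k) (h : u ≤ k * t) :
    t ^ (-(5 / 48 : ℝ)) ≤ k * u ^ (-(5 / 48 : ℝ)) := by
  have hk0 : 0 < k := by linarith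
  have h1 : u / k ≤ t := by rw [div_le_iff₀ hk0]; linarith
  have h2 : t ^ (-(5 / 48 : ℝ)) ≤ (u / k) ^ (-(5 / 48 : ℝ)) :=
    Real.rpow_le_rpow_of_nonpos (by positivity) h1 (by norm_num)
  refine h2.trans ?_
  rw [Real.div_rpow hu.le hk0.le, Real.rpow_neg hk0.le, div_inv_eq_mul, mul_comm]
  apply mul_le_mul_of_nonneg_right _ (by positivity)
  calc k ^ (5 / 48 : ℝ) ≤ k ^ (1 : ℝ) := Real.rpow_le_rpow_of_exponent_le hk (by norm_num)
    _ = k := Real.rpow_one k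

theorem pmul {t u : ℝ} (ht : 0 < t) (hu : 0 < u) :
    t ^ (-(5 / 48 : ℝ)) * u ^ (-(5 / 48 : ℝ)) = (t * u) ^ (-(5 / 48 : ℝ)) :=
  (Real.mul_rpow ht.le hu.le).symm

/-- the effective distance -/
noncomputable def ue (a R : ℕ) : ℝ := (a : ℝ) * max 1 ((a : ℝ) / R)

theorem ue_pos {a R : ℕ} (ha : 1 ≤ a) : 0 < ue a R := by
  unfold ue
  have h1 : (0 : ℝ) < a := by exact_mod_cast ha
  have h2 : (0 : ℝ) < max 1 ((a : ℝ) / R) := lt_of_lt_of_le one_pos (le_max_left _ _)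
  positivity

theorem ue_ge1 {a R : ℕ} (ha : 1 ≤ a) : (a : ℝ) ≤ ue a R := by
  unfold ue
  have h1 : (0 : ℝ) < a := by exact_mod_cast ha
  have h2 : (1 : ℝ) ≤ max 1 ((a : ℝ) / R) := le_max_left _ _
  nlinarith

theorem ue_ge2 {a R : ℕ} (ha : 1 ≤ a) : (a : ℝ) * ((a : ℝ) / R) ≤ ue a R := by
  unfold ue
  have h1 : (0 : ℝ) < a := by exact_mod_cast ha
  exact mul_le_mul_of_nonneg_left (le_max_right _ _) h1.le

theorem fin_upper (hAr : ArS) : ∃ C : ℝ, 0 < C ∧ ∀ (X : Finset Vtx) (x y : Vtx) (a R : ℕ),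
    y ∈ X → nv (y - x) = a → 1 ≤ a → 1 ≤ R → (∀ u ∈ X, a ≤ nv (u - x)) →
    (∀ u ∈ X, nv (u - y) ≤ R) → ∀ S : Finset Edg, boxE (nv x + nv y + 8 * a) ⊆ S →
    Pr P S (fun F => Cn (insert x X) (↑F)) ≤
      C * ue a R ^ (-(5 / 48 : ℝ)) * Pr P S (fun F => Cn X (↑F)) := by
  obtain ⟨C1, hC1, hb⟩ := barm_le hAr
  obtain ⟨c0, C0, hc0, hC0, har⟩ := hAr
  refine ⟨4 + 2 ^ 188 * (C0 * 135) + 2 ^ 188 * (C0 * C1 * 75), by positivity, ?_⟩
  intro X x y a R hy hxy ha hR hX hXR S hS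
  have ha0 : (0 : ℝ) < a := by exact_mod_cast ha
  have hR0 : (0 : ℝ) < R := by exact_mod_cast hR
  have hR1 : (1 : ℝ) ≤ R := by exact_mod_cast hR
  have hu := ue_pos (R := R) ha
  have hup : 0 < ue a R ^ (-(5 / 48 : ℝ)) := Real.rpow_pos_of_pos hu _
  have pX : 0 ≤ Pr P S (fun F => Cn X (↑F)) := Pr_nonneg Quad.okP _ _
  have hK : 0 ≤ ue a R ^ (-(5 / 48 : ℝ)) * Pr P S (fun F => Cn X (↑F)) := by positivity
  have hbx : bo x a ⊆ S := bo_sub.trans ((boxE_mono (by omega)).trans hS)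
  suffices hs : ∃ k : ℝ, k ≤ 4 + 2 ^ 188 * (C0 * 135) + 2 ^ 188 * (C0 * C1 * 75) ∧
      Pr P S (fun F => Cn (insert x X) (↑F)) ≤
        k * (ue a R ^ (-(5 / 48 : ℝ)) * Pr P S (fun F => Cn X (↑F))) by
    obtain ⟨k, hk, h⟩ := hs
    rw [mul_assoc]
    exact h.trans (mul_le_mul_of_nonneg_right hk hK)
  have e1 : (0 : ℝ) ≤ 2 ^ 188 * (C0 * 135) := by positivity
  have e2 : (0 : ℝ) ≤ 2 ^ 188 * (C0 * C1 * 75) := by positivity
  rcases Nat.lt_or_ge a 3 with h3 | h3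
  · refine ⟨4, by linarith, ?_⟩
    have h1 : Pr P S (fun F => Cn (insert x X) (↑F)) ≤ Pr P S (fun F => Cn X (↑F)) :=
      Pr_mono Quad.okP (fun F _ hF u hu v hv => hF u (Finset.mem_insert_of_mem hu) v
        (Finset.mem_insert_of_mem hv))
    have h2 : (1 : ℝ) ≤ 4 * ue a R ^ (-(5 / 48 : ℝ)) := by
      have := pw (t := 1) (u := ue a R) (k := 4) one_pos hu (by norm_num) (by
        unfold ue
        have h4 : (a : ℝ) ≤ 2 := by exact_mod_cast (by omega : a ≤ 2)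
        have h5 : max 1 ((a : ℝ) / R) ≤ 2 := by
          apply max_le (by norm_num)
          rw [div_le_iff₀ hR0]
          linarith
        have h6 : (0 : ℝ) ≤ max 1 ((a : ℝ) / R) := le_trans zero_le_one (le_max_left _ _)
        nlinarith)
      rwa [Real.one_rpow] at this
    nlinarith
  · set n := a / 3 with hn
    have hn1 : 1 ≤ n := by omega
    have hn0 : (0 : ℝ) < n := by exact_mod_cast hn1
    have han : (a : ℝ) ≤ 5 * n := by exact_mod_cast (by omega : a ≤ 5 * n)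
    have harn := (har n hn1).2
    rcases Nat.lt_or_ge a (27 * R) with h27 | h27
    · refine ⟨2 ^ 188 * (C0 * 135), by linarith, ?_⟩
      have h1 := add_upper1 hy hxy h3 hX hbx
      have h2 : (n : ℝ) ^ (-(5 / 48 : ℝ)) ≤ 135 * ue a R ^ (-(5 / 48 : ℝ)) := by
        apply pw hn0 hu (by norm_num)
        unfold ue
        have h5 : max 1 ((a : ℝ) / R) ≤ 27 := by
          apply max_le (by norm_num)
          rw [div_le_iff₀ hR0]
          have : (a : ℝ) ≤ 27 * R := by exact_mod_cast h27.le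
          linarith
        have h6 : (0 : ℝ) ≤ max 1 ((a : ℝ) / R) := le_trans zero_le_one (le_max_left _ _)
        nlinarith
      have h3' : ar n ≤ C0 * (135 * ue a R ^ (-(5 / 48 : ℝ))) :=
        harn.trans (mul_le_mul_of_nonneg_left h2 hC0.le)
      calc Pr P S (fun F => Cn (insert x X) (↑F))
          ≤ 2 ^ 188 * (ar n * Pr P S (fun F => Cn X (↑F))) := h1
        _ ≤ 2 ^ 188 * (C0 * (135 * ue a R ^ (-(5 / 48 : ℝ))) * Pr P S (fun F => Cn X (↑F))) := by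
            apply mul_le_mul_of_nonneg_left _ (by positivity)
            exact mul_le_mul_of_nonneg_right h3' pX
        _ = _ := by ring
    · refine ⟨2 ^ 188 * (C0 * C1 * 75), by linarith, ?_⟩
      have hxy' : nv (x - y) = a := by rw [w_nv_comm]; exact hxy
      have h1 := add_upper2 hy hxy' hR h27 hXR
        (bo_sub.trans ((boxE_mono (by omega)).trans hS) : bo y (3 * R) ⊆ S)
      have h2 := hb (3 * R) n (by omega) (by omega)
      have e3 : (((3 * R : ℕ) : ℝ) / n) ^ ((5 : ℝ) / 48) =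
          ((n : ℝ) / ((3 * R : ℕ) : ℝ)) ^ (-(5 / 48 : ℝ)) := by
        rw [Real.rpow_neg (by positivity), ← Real.inv_rpow (by positivity), inv_div]
      rw [e3] at h2
      have hq : (0 : ℝ) < (n : ℝ) / ((3 * R : ℕ) : ℝ) := by
        have : (0 : ℝ) < ((3 * R : ℕ) : ℝ) := by push_cast; positivity
        positivity
      have h4 : (n : ℝ) ^ (-(5 / 48 : ℝ)) * ((n : ℝ) / ((3 * R : ℕ) : ℝ)) ^ (-(5 / 48 : ℝ)) ≤
          75 * ue a R ^ (-(5 / 48 : ℝ)) := by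
        rw [pmul hn0 hq]
        apply pw (by positivity) hu (by norm_num)
        unfold ue
        have h5 : max 1 ((a : ℝ) / R) = (a : ℝ) / R := by
          apply max_eq_right
          rw [le_div_iff₀ hR0]
          have : ((27 * R : ℕ) : ℝ) ≤ a := by exact_mod_cast h27
          push_cast at this
          linarith
        rw [h5]
        push_cast
        rw [show 75 * ((n : ℝ) * ((n : ℝ) / (3 * R))) = (25 * (n * n)) / R by field_simp; ring,
          show (a : ℝ) * ((a : ℝ) / R) = (a * a) / R by ring]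
        apply div_le_div_of_nonneg_right _ hR0.le
        nlinarith
      have pb : 0 ≤ barm (1 / 2) (3 * R) n := barm_nonneg (by norm_num) (by norm_num) _ _
      have h6 : ar n * barm (1 / 2) (3 * R) n ≤ C0 * C1 * (75 * ue a R ^ (-(5 / 48 : ℝ))) := by
        calc ar n * barm (1 / 2) (3 * R) n
            ≤ (C0 * (n : ℝ) ^ (-(5 / 48 : ℝ))) *
                (C1 * ((n : ℝ) / ((3 * R : ℕ) : ℝ)) ^ (-(5 / 48 : ℝ))) :=
              mul_le_mul harn h2 pb (by positivity)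
          _ = C0 * C1 * ((n : ℝ) ^ (-(5 / 48 : ℝ)) *
                ((n : ℝ) / ((3 * R : ℕ) : ℝ)) ^ (-(5 / 48 : ℝ))) := by ring
          _ ≤ _ := mul_le_mul_of_nonneg_left h4 (by positivity)
      calc Pr P S (fun F => Cn (insert x X) (↑F))
          ≤ 2 ^ 188 * (ar n * (barm (1 / 2) (3 * R) n * Pr P S (fun F => Cn X (↑F)))) := h1
        _ = 2 ^ 188 * ((ar n * barm (1 / 2) (3 * R) n) * Pr P S (fun F => Cn X (↑F))) := by ring
        _ ≤ 2 ^ 188 * ((C0 * C1 * (75 * ue a R ^ (-(5 / 48 : ℝ)))) *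
              Pr P S (fun F => Cn X (↑F))) := by
            apply mul_le_mul_of_nonneg_left _ (by positivity)
            exact mul_le_mul_of_nonneg_right h6 pX
        _ = _ := by ring

theorem fin_lower (hAr : ArS) : ∃ c : ℝ, 0 < c ∧ ∀ (X : Finset Vtx) (x y z0 : Vtx) (a R : ℕ),
    y ∈ X → z0 ∈ X → nv (y - x) = a → 1 ≤ a → 1 ≤ R → (R ≤ 15 ∨ R ≤ 2 * nv (z0 - y)) →
    ∀ S : Finset Edg, boxE (nv x + nv y + 8 * a) ⊆ S →
    c * ue a R ^ (-(5 / 48 : ℝ)) * Pr P S (fun F => Cn X (↑F)) ≤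
      Pr P S (fun F => Cn (insert x X) (↑F)) := by
  obtain ⟨c0, C0, hc0, hC0, har⟩ := hAr
  set k0 : ℝ := (1 / 2 : ℝ) ^ 188 with hk0
  have hk00 : 0 < k0 := by positivity
  have hk01 : k0 ≤ 1 := by rw [hk0]; exact pow_le_one₀ (by norm_num) (by norm_num)
  set c1 : ℝ := k0 * (c0 ^ 2 / 960) with hc1
  set c2 : ℝ := k0 * k0 * (c0 ^ 2 / C0 / 1024) with hc2
  refine ⟨min c1 c2, by positivity, ?_⟩
  intro X x y z0 a R hy hz0 hxy ha hR hcase S hS
  have ha0 : (0 : ℝ) < a := by exact_mod_cast ha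
  have hR0 : (0 : ℝ) < R := by exact_mod_cast hR
  have hu := ue_pos (R := R) ha
  have hup : 0 < ue a R ^ (-(5 / 48 : ℝ)) := Real.rpow_pos_of_pos hu _
  have pX : 0 ≤ Pr P S (fun F => Cn X (↑F)) := Pr_nonneg Quad.okP _ _
  have h8 := (har (8 * a) (by omega)).1
  have h80 : (0 : ℝ) < ((8 * a : ℕ) : ℝ) := by push_cast; positivity
  have hsq : c0 ^ 2 * (64 * (a : ℝ) ^ 2) ^ (-(5 / 48 : ℝ)) ≤ ar (8 * a) * ar (8 * a) := by
    have h1 := mul_le_mul h8 h8 (by positivity) (ar_pos (8 * a)).le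
    refine le_trans (le_of_eq ?_) h1
    rw [show (64 * (a : ℝ) ^ 2) = ((8 * a : ℕ) : ℝ) * ((8 * a : ℕ) : ℝ) by push_cast; ring,
      ← pmul h80 h80]
    ring
  by_cases hsm : a ≤ 15 ∨ R ≤ 15
  · have h1 := add_lower1 hy hxy ha hS
    have h2 : ue a R ^ (-(5 / 48 : ℝ)) ≤ 960 * (64 * (a : ℝ) ^ 2) ^ (-(5 / 48 : ℝ)) := by
      apply pw hu (by positivity) (by norm_num)
      rcases hsm with h | h
      · have h3 := ue_ge1 (R := R) ha
        have h4 : (a : ℝ) ≤ 15 := by exact_mod_cast h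
        nlinarith
      · have h3 := ue_ge2 (R := R) ha
        have h4 : (R : ℝ) ≤ 15 := by exact_mod_cast h
        have h5 : (a : ℝ) * ((a : ℝ) / 15) ≤ (a : ℝ) * ((a : ℝ) / R) := by
          apply mul_le_mul_of_nonneg_left _ ha0.le
          exact div_le_div_of_nonneg_left ha0.le hR0 h4
        nlinarith
    have h3 : c1 * ue a R ^ (-(5 / 48 : ℝ)) ≤ k0 * (ar (8 * a) * ar (8 * a)) := by
      calc c1 * ue a R ^ (-(5 / 48 : ℝ)) ≤
            c1 * (960 * (64 * (a : ℝ) ^ 2) ^ (-(5 / 48 : ℝ))) :=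
            mul_le_mul_of_nonneg_left h2 (by positivity)
        _ = k0 * (c0 ^ 2 * (64 * (a : ℝ) ^ 2) ^ (-(5 / 48 : ℝ))) := by rw [hc1]; ring
        _ ≤ _ := mul_le_mul_of_nonneg_left hsq hk00.le
    calc min c1 c2 * ue a R ^ (-(5 / 48 : ℝ)) * Pr P S (fun F => Cn X (↑F))
        ≤ c1 * ue a R ^ (-(5 / 48 : ℝ)) * Pr P S (fun F => Cn X (↑F)) := by
          apply mul_le_mul_of_nonneg_right _ pX
          exact mul_le_mul_of_nonneg_right (min_le_left _ _) hup.le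
      _ ≤ k0 * (ar (8 * a) * ar (8 * a)) * Pr P S (fun F => Cn X (↑F)) :=
          mul_le_mul_of_nonneg_right h3 pX
      _ ≤ _ := h1
  · push Not at hsm
    obtain ⟨ha16, hR16⟩ := hsm
    have hfar : R ≤ 2 * nv (z0 - y) := by
      rcases hcase with h | h
      · omega
      · exact h
    set m := min a R with hm
    set q := m / 8 with hq
    have hm16 : 16 ≤ m := by omega
    have hma : m ≤ a := min_le_left _ _
    have hmR : m ≤ R := min_le_right _ _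
    have hq1 : 1 ≤ q := by omega
    have h1 := add_lower2 hy hz0 hxy hq1 (by omega) (by omega) hS
    have hq0 : (0 : ℝ) < q := by exact_mod_cast hq1
    have hm0 : (0 : ℝ) < m := by exact_mod_cast (by omega : 0 < m)
    have hqm : (m : ℝ) ≤ 16 * q := by exact_mod_cast (by omega : m ≤ 16 * q)
    have hsp := ar_split (r := q) (n := 8 * a) (by omega)
    have harq := (har q hq1).2
    have pb : 0 ≤ barm (1 / 2) q (8 * a) := barm_nonneg (by norm_num) (by norm_num) _ _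
    have hqp : (0 : ℝ) < (q : ℝ) ^ (-(5 / 48 : ℝ)) := by positivity
    -- lower bound of `ar * barm`
    have h2 : ar (8 * a) * ar (8 * a) ≤
        C0 * (q : ℝ) ^ (-(5 / 48 : ℝ)) * (ar (8 * a) * barm (1 / 2) q (8 * a)) := by
      calc ar (8 * a) * ar (8 * a) ≤ ar (8 * a) * (ar q * barm (1 / 2) q (8 * a)) :=
            mul_le_mul_of_nonneg_left hsp (ar_pos _).le
        _ ≤ ar (8 * a) * ((C0 * (q : ℝ) ^ (-(5 / 48 : ℝ))) * barm (1 / 2) q (8 * a)) := by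
            apply mul_le_mul_of_nonneg_left _ (ar_pos _).le
            exact mul_le_mul_of_nonneg_right harq pb
        _ = _ := by ring
    have h3 : ue a R ^ (-(5 / 48 : ℝ)) ≤ 1024 * (64 * (a : ℝ) ^ 2 / q) ^ (-(5 / 48 : ℝ)) := by
      apply pw hu (by positivity) (by norm_num)
      have h4 : (a : ℝ) * a / m ≤ ue a R := by
        rcases min_choice a R with h | h
        · have e : (m : ℝ) = a := by rw [hm, h]
          rw [e, mul_div_assoc, div_self ha0.ne', mul_one]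
          exact ue_ge1 ha
        · have e : (m : ℝ) = R := by rw [hm, h]
          rw [e, mul_div_assoc]
          exact ue_ge2 ha
      calc 64 * (a : ℝ) ^ 2 / q ≤ 1024 * ((a : ℝ) * a / m) := by
            rw [div_le_iff₀ hq0]
            have h5 : 1024 * ((a : ℝ) * a / m) * q = 64 * (a : ℝ) ^ 2 * (16 * q / m) := by ring
            rw [h5]
            have h6 : 1 ≤ 16 * (q : ℝ) / m := by rw [le_div_iff₀ hm0]; linarith
            nlinarith [sq_nonneg (a : ℝ)]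
        _ ≤ _ := by linarith
    have h4 : (64 * (a : ℝ) ^ 2 / q) ^ (-(5 / 48 : ℝ)) * (q : ℝ) ^ (-(5 / 48 : ℝ)) =
        (64 * (a : ℝ) ^ 2) ^ (-(5 / 48 : ℝ)) := by
      rw [pmul (by positivity) hq0]
      congr 1
      field_simp
    have h5 : c2 * ue a R ^ (-(5 / 48 : ℝ)) ≤ k0 * k0 * (ar (8 * a) * barm (1 / 2) q (8 * a)) := by
      have h6 : c2 * ue a R ^ (-(5 / 48 : ℝ)) * (q : ℝ) ^ (-(5 / 48 : ℝ)) ≤
          k0 * k0 * (ar (8 * a) * barm (1 / 2) q (8 * a)) * (q : ℝ) ^ (-(5 / 48 : ℝ)) := by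
        calc c2 * ue a R ^ (-(5 / 48 : ℝ)) * (q : ℝ) ^ (-(5 / 48 : ℝ))
            ≤ c2 * (1024 * (64 * (a : ℝ) ^ 2 / q) ^ (-(5 / 48 : ℝ))) *
                (q : ℝ) ^ (-(5 / 48 : ℝ)) := by
              apply mul_le_mul_of_nonneg_right _ hqp.le
              exact mul_le_mul_of_nonneg_left h3 (by positivity)
          _ = k0 * k0 / C0 * (c0 ^ 2 * ((64 * (a : ℝ) ^ 2 / q) ^ (-(5 / 48 : ℝ)) *
                (q : ℝ) ^ (-(5 / 48 : ℝ)))) := by rw [hc2]; ring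
          _ = k0 * k0 / C0 * (c0 ^ 2 * (64 * (a : ℝ) ^ 2) ^ (-(5 / 48 : ℝ))) := by rw [h4]
          _ ≤ k0 * k0 / C0 * (C0 * (q : ℝ) ^ (-(5 / 48 : ℝ)) *
                (ar (8 * a) * barm (1 / 2) q (8 * a))) :=
              mul_le_mul_of_nonneg_left (hsq.trans h2) (by positivity)
          _ = _ := by field_simp
      exact le_of_mul_le_mul_right h6 hqp
    calc min c1 c2 * ue a R ^ (-(5 / 48 : ℝ)) * Pr P S (fun F => Cn X (↑F))
        ≤ c2 * ue a R ^ (-(5 / 48 : ℝ)) * Pr P S (fun F => Cn X (↑F)) := by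
          apply mul_le_mul_of_nonneg_right _ pX
          exact mul_le_mul_of_nonneg_right (min_le_right _ _) hup.le
      _ ≤ k0 * k0 * (ar (8 * a) * barm (1 / 2) q (8 * a)) * Pr P S (fun F => Cn X (↑F)) :=
          mul_le_mul_of_nonneg_right h5 pX
      _ ≤ _ := h1

/-! ### infinite volume -/

/-- the probability that all the vertices of `X` are connected -/
noncomputable def PX (X : Finset Vtx) : ℝ := (bondLaw hlf).real {ω | Cn X (opn ω)}

theorem Cn_box {X : Finset Vtx} {F : Set Edg} (h : Cn X F) : ∃ m : ℕ, Cn X (F ∩ ↑(boxE m)) := by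
  classical
  have h1 : ∀ p : Vtx × Vtx, ∃ m : ℕ, p ∈ X ×ˢ X → Reach (F ∩ ↑(boxE m)) p.1 p.2 := by
    intro p
    by_cases hp : p ∈ X ×ˢ X
    · rw [Finset.mem_product] at hp
      obtain ⟨m, hm⟩ := InfAux.reach_box (h p.1 hp.1 p.2 hp.2)
      exact ⟨m, fun _ => hm⟩
    · exact ⟨0, fun h => absurd h hp⟩
  choose m hm using h1
  refine ⟨(X ×ˢ X).sup m, fun u hu v hv => ?_⟩
  have hp : (u, v) ∈ X ×ˢ X := Finset.mem_product.mpr ⟨hu, hv⟩
  exact (hm (u, v) hp).mono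
    (Set.inter_subset_inter_right _ (InfAux.boxE_coe_mono (Finset.le_sup hp)))

theorem PX_ge (X : Finset Vtx) (m : ℕ) : Pr P (boxE m) (fun F => Cn X (↑F)) ≤ PX X :=
  InfAux.lower (Cn X) (fun _ _ h hF => hF.mono h) m

theorem PX_le (X : Finset Vtx) (c : ℝ) (h : ∀ m : ℕ, Pr P (boxE m) (fun F => Cn X (↑F)) ≤ c) :
    PX X ≤ c :=
  InfAux.upper (Cn X) (fun _ _ h hF => hF.mono h) (fun _ hF => Cn_box hF) c h

theorem PX_nonneg (X : Finset Vtx) : 0 ≤ PX X := measureReal_nonneg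

theorem Pr_box_mono {X : Finset Vtx} {m m' : ℕ} (h : m ≤ m') :
    Pr P (boxE m) (fun F => Cn X (↑F)) ≤ Pr P (boxE m') (fun F => Cn X (↑F)) :=
  Pr_mono_set Quad.okP (boxE_mono h) (Cn_incr _ X)

theorem inf_upper (hAr : ArS) : ∃ C : ℝ, 0 < C ∧ ∀ (X : Finset Vtx) (x y : Vtx) (a R : ℕ),
    y ∈ X → nv (y - x) = a → 1 ≤ a → 1 ≤ R → (∀ u ∈ X, a ≤ nv (u - x)) →
    (∀ u ∈ X, nv (u - y) ≤ R) → PX (insert x X) ≤ C * ue a R ^ (-(5 / 48 : ℝ)) * PX X := by
  obtain ⟨C, hC, h⟩ := fin_upper hAr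
  refine ⟨C, hC, fun X x y a R hy hxy ha hR hX hXR => ?_⟩
  apply PX_le
  intro m
  have hK : 0 ≤ C * ue a R ^ (-(5 / 48 : ℝ)) :=
    mul_nonneg hC.le (Real.rpow_nonneg (ue_pos ha).le _)
  calc Pr P (boxE m) (fun F => Cn (insert x X) (↑F))
      ≤ Pr P (boxE (nv x + nv y + 8 * a + m)) (fun F => Cn (insert x X) (↑F)) :=
        Pr_box_mono (by omega)
    _ ≤ C * ue a R ^ (-(5 / 48 : ℝ)) *
          Pr P (boxE (nv x + nv y + 8 * a + m)) (fun F => Cn X (↑F)) :=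
        h X x y a R hy hxy ha hR hX hXR _ (boxE_mono (by omega))
    _ ≤ _ := mul_le_mul_of_nonneg_left (PX_ge X _) hK

theorem inf_lower (hAr : ArS) : ∃ c : ℝ, 0 < c ∧ ∀ (X : Finset Vtx) (x y z0 : Vtx) (a R : ℕ),
    y ∈ X → z0 ∈ X → nv (y - x) = a → 1 ≤ a → 1 ≤ R → (R ≤ 15 ∨ R ≤ 2 * nv (z0 - y)) →
    c * ue a R ^ (-(5 / 48 : ℝ)) * PX X ≤ PX (insert x X) := by
  obtain ⟨c, hc, h⟩ := fin_lower hAr
  refine ⟨c, hc, fun X x y z0 a R hy hz0 hxy ha hR hcase => ?_⟩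
  have hK : 0 < c * ue a R ^ (-(5 / 48 : ℝ)) :=
    mul_pos hc (Real.rpow_pos_of_pos (ue_pos ha) _)
  have h1 : PX X ≤ PX (insert x X) / (c * ue a R ^ (-(5 / 48 : ℝ))) := by
    apply PX_le
    intro m
    rw [le_div_iff₀ hK, mul_comm]
    calc c * ue a R ^ (-(5 / 48 : ℝ)) * Pr P (boxE m) (fun F => Cn X (↑F))
        ≤ c * ue a R ^ (-(5 / 48 : ℝ)) *
            Pr P (boxE (nv x + nv y + 8 * a + m)) (fun F => Cn X (↑F)) :=
          mul_le_mul_of_nonneg_left (Pr_box_mono (by omega)) hK.le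
      _ ≤ Pr P (boxE (nv x + nv y + 8 * a + m)) (fun F => Cn (insert x X) (↑F)) :=
          h X x y z0 a R hy hz0 hxy ha hR hcase _ (boxE_mono (by omega))
      _ ≤ _ := PX_ge _ _
  rw [le_div_iff₀ hK, mul_comm] at h1
  exact h1

end H362P
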